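import Mathlib

/-!
# Graphs with the spectrum of the Johnson graph `J(N, 3)`

Let `𝒬` be a family of `4`-subsets of an `N`-set, any two of which share at most two elements. The
vertices of the graph `Γ 𝒬` are the `3`-subsets of the `N`-set. The block of a `3`-subset `T` is the
triangle of the three pairs in `T` if `T` is not contained in a member of `𝒬`; and if `T ⊆ Q ∈ 𝒬`,
then the block is the claw of the three pairs in `Q` which are not contained in `T`. Two vertices are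
adjacent if their blocks share a pair.
-/

set_option autoImplicit false
set_option linter.unusedSectionVars false

namespace Pool.Agent.U29.JS

open Finset

/-- the `k`-subsets of a type -/
abbrev Sub (X : Type*) (k : ℕ) := {s : Finset X // s.card = k}

variable {X : Type*} [Fintype X] [DecidableEq X]

/-- A family of `4`-subsets, any two of which share at most two elements. -/
structure Sys (𝒬 : Set (Finset X)) : Prop where
  card : ∀ Q ∈ 𝒬, Q.card = 4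
  inter : ∀ Q ∈ 𝒬, ∀ Q' ∈ 𝒬, 3 ≤ (Q ∩ Q').card → Q = Q'

/-- The pair `p` is on the block of the `3`-set `T`. -/
def inc (𝒬 : Set (Finset X)) (T p : Finset X) : Prop :=
  (∃ Q ∈ 𝒬, T ⊆ Q ∧ p ⊆ Q ∧ ¬ p ⊆ T) ∨ (p ⊆ T ∧ ¬ ∃ Q ∈ 𝒬, T ⊆ Q)

theorem sys_empty : Sys (∅ : Set (Finset X)) := ⟨fun _ h => h.elim, fun _ h => h.elim⟩

section

variable {𝒬 : Set (Finset X)} (h𝒬 : Sys 𝒬)
include h𝒬

theorem Sys.unique {T Q Q' : Finset X} (hT : T.card = 3) (hQ : Q ∈ 𝒬) (hQ' : Q' ∈ 𝒬)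
    (h : T ⊆ Q) (h' : T ⊆ Q') : Q = Q' :=
  h𝒬.inter Q hQ Q' hQ' (hT ▸ card_le_card (subset_inter h h'))

theorem Sys.split {T Q : Finset X} (hT : T.card = 3) (hQ : Q ∈ 𝒬) (h : T ⊆ Q) :
    ∃ a, a ∉ T ∧ insert a T = Q := by
  have h1 : ∃ a, ∃ _ : a ∉ T, insert a T = Q := by
    have := (Finset.exists_eq_insert_iff (s := T) (t := Q)).2 ⟨h, by rw [hT, h𝒬.card Q hQ]⟩
    obtain ⟨a, ha, h2⟩ := this
    exact ⟨a, ha, h2⟩
  obtain ⟨a, ha, h2⟩ := h1
  exact ⟨a, ha, h2⟩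

theorem mem_of_not_subset {T p : Finset X} {a : X} (h1 : p ⊆ insert a T) (h2 : ¬ p ⊆ T) :
    a ∈ p := by
  by_contra h
  exact h2 fun x hx => (mem_insert.1 (h1 hx)).resolve_left fun hxa => h (hxa ▸ hx)

theorem inc_inter {T p q : Finset X} (hT : T.card = 3) (hp : p.card = 2) (hq : q.card = 2)
    (h1 : inc 𝒬 T p) (h2 : inc 𝒬 T q) : (p ∩ q).Nonempty := by
  rcases h1 with ⟨Q, hQ, h1, h3, h4⟩ | ⟨h1, h3⟩ <;>
    rcases h2 with ⟨Q', hQ', h2, h5, h6⟩ | ⟨h2, h5⟩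
  · obtain rfl := h𝒬.unique hT hQ hQ' h1 h2
    obtain ⟨a, ha, rfl⟩ := h𝒬.split hT hQ h1
    exact ⟨a, mem_inter.2 ⟨mem_of_not_subset h𝒬 h3 h4, mem_of_not_subset h𝒬 h5 h6⟩⟩
  · exact absurd ⟨Q, hQ, h1⟩ h5
  · exact absurd ⟨Q', hQ', h2⟩ h3
  · by_contra h
    rw [not_nonempty_iff_eq_empty, ← disjoint_iff_inter_eq_empty] at h
    have h6 := card_le_card (union_subset h1 h2)
    rw [card_union_of_disjoint h] at h6
    omega

theorem union_card {p q : Finset X} (hp : p.card = 2) (hq : q.card = 2) (hpq : p ≠ q) :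
    3 ≤ (p ∪ q).card := by
  by_contra h
  have h1 : (p ∪ q).card ≤ 2 := by omega
  have h2 := eq_of_subset_of_card_le (subset_union_left (s₁ := p) (s₂ := q)) (by omega)
  have h3 := eq_of_subset_of_card_le (subset_union_right (s₁ := p) (s₂ := q)) (by omega)
  exact hpq (h2.trans h3.symm)

theorem inc_exists {p q : Finset X} (hp : p.card = 2) (hq : q.card = 2) (hpq : p ≠ q)
    (h : (p ∩ q).Nonempty) : ∃ T : Finset X, T.card = 3 ∧ inc 𝒬 T p ∧ inc 𝒬 T q := by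
  obtain ⟨a, ha⟩ := h
  rw [mem_inter] at ha
  have h1 : (p ∪ q).card = 3 := by
    have h2 := union_card h𝒬 hp hq hpq
    have h3 := card_union_add_card_inter p q
    have h4 : 0 < (p ∩ q).card := card_pos.2 ⟨a, mem_inter.2 ha⟩
    omega
  by_cases h2 : ∃ Q ∈ 𝒬, p ∪ q ⊆ Q
  · obtain ⟨Q, hQ, h3⟩ := h2
    have haQ : a ∈ Q := h3 (mem_union_left _ ha.1)
    refine ⟨Q.erase a, ?_, Or.inl ⟨Q, hQ, erase_subset _ _, ?_, ?_⟩,
      Or.inl ⟨Q, hQ, erase_subset _ _, ?_, ?_⟩⟩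
    · rw [card_erase_of_mem haQ, h𝒬.card Q hQ]
    · exact subset_union_left.trans h3
    · exact fun h => (mem_erase.1 (h ha.1)).1 rfl
    · exact subset_union_right.trans h3
    · exact fun h => (mem_erase.1 (h ha.2)).1 rfl
  · exact ⟨p ∪ q, h1, Or.inr ⟨subset_union_left, h2⟩, Or.inr ⟨subset_union_right, h2⟩⟩

theorem inc_unique {T T' p q : Finset X} (hT : T.card = 3) (hT' : T'.card = 3) (hp : p.card = 2)
    (hq : q.card = 2) (hpq : p ≠ q) (h1 : inc 𝒬 T p) (h2 : inc 𝒬 T q) (h3 : inc 𝒬 T' p)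
    (h4 : inc 𝒬 T' q) : T = T' := by
  have hU := union_card h𝒬 hp hq hpq
  have key : ∀ {T : Finset X}, T.card = 3 → inc 𝒬 T p → inc 𝒬 T q →
      (∃ Q ∈ 𝒬, T ⊆ Q ∧ p ∪ q ⊆ Q ∧ ¬ p ⊆ T ∧ ¬ q ⊆ T) ∨ (T = p ∪ q ∧ ¬ ∃ Q ∈ 𝒬, T ⊆ Q) := by
    intro T hT h1 h2
    rcases h1 with ⟨Q, hQ, h1, h3, h4⟩ | ⟨h1, h3⟩ <;>
      rcases h2 with ⟨Q', hQ', h2, h5, h6⟩ | ⟨h2, h5⟩
    · obtain rfl := h𝒬.unique hT hQ hQ' h1 h2
      exact Or.inl ⟨Q, hQ, h1, union_subset h3 h5, h4, h6⟩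
    · exact absurd ⟨Q, hQ, h1⟩ h5
    · exact absurd ⟨Q', hQ', h2⟩ h3
    · exact Or.inr ⟨(eq_of_subset_of_card_le (union_subset h1 h2) (by omega)).symm, h5⟩
  rcases key hT h1 h2 with ⟨Q, hQ, a1, a2, a3, a4⟩ | ⟨a1, a2⟩ <;>
    rcases key hT' h3 h4 with ⟨Q', hQ', b1, b2, b3, b4⟩ | ⟨b1, b2⟩
  · have hQQ : Q = Q' := h𝒬.inter Q hQ Q' hQ' (hU.trans (card_le_card (subset_inter a2 b2)))
    subst hQQ
    obtain ⟨a, ha, e1⟩ := h𝒬.split hT hQ a1
    obtain ⟨b, hb, e2⟩ := h𝒬.split hT' hQ b1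
    have a5 : ∀ {r : Finset X}, r ⊆ Q → ¬ r ⊆ T → a ∈ r := fun h h' =>
      mem_of_not_subset h𝒬 (e1 ▸ h) h'
    have b5 : ∀ {r : Finset X}, r ⊆ Q → ¬ r ⊆ T' → b ∈ r := fun h h' =>
      mem_of_not_subset h𝒬 (e2 ▸ h) h'
    have hpQ : p ⊆ Q := subset_union_left.trans a2
    have hqQ : q ⊆ Q := subset_union_right.trans a2
    by_cases hab : a = b
    · subst hab
      have : (insert a T).erase a = (insert a T').erase a := by rw [e1, e2]
      rwa [erase_insert ha, erase_insert hb] at this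
    · exfalso
      have h5 : ({a, b} : Finset X) = p := eq_of_subset_of_card_le (by
        intro x hx
        rw [mem_insert, mem_singleton] at hx
        rcases hx with rfl | rfl
        · exact a5 hpQ a3
        · exact b5 hpQ b3) (by rw [hp, card_pair hab])
      have h6 : ({a, b} : Finset X) = q := eq_of_subset_of_card_le (by
        intro x hx
        rw [mem_insert, mem_singleton] at hx
        rcases hx with rfl | rfl
        · exact a5 hqQ a4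
        · exact b5 hqQ b4) (by rw [hq, card_pair hab])
      exact hpq (h5.symm.trans h6)
  · exact absurd ⟨Q, hQ, b1 ▸ a2⟩ b2
  · exact absurd ⟨Q', hQ', a1 ▸ b2⟩ a2
  · rw [a1, b1]

open Classical in
theorem card_inc {T : Finset X} (hT : T.card = 3) :
    (univ.filter fun p : Sub X 2 => inc 𝒬 T p.1).card = 3 := by
  have h0 : (univ.filter fun p : Sub X 2 => inc 𝒬 T p.1).card =
      (univ.filter fun p : Finset X => p.card = 2 ∧ inc 𝒬 T p).card := by
    refine card_bij (fun p _ => p.1) ?_ ?_ ?_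
    · intro p hp
      rw [mem_filter] at hp ⊢
      exact ⟨mem_univ _, p.2, hp.2⟩
    · intro p _ q _ h
      exact Subtype.ext h
    · intro p hp
      rw [mem_filter] at hp
      exact ⟨⟨p, hp.2.1⟩, by rw [mem_filter]; exact ⟨mem_univ _, hp.2.2⟩, rfl⟩
  rw [h0]
  by_cases h : ∃ Q ∈ 𝒬, T ⊆ Q
  · obtain ⟨Q, hQ, hTQ⟩ := h
    have h1 : (univ.filter fun p : Finset X => p.card = 2 ∧ inc 𝒬 T p) =
        powersetCard 2 Q \ powersetCard 2 T := by
      ext p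
      rw [mem_filter, mem_sdiff, mem_powersetCard, mem_powersetCard]
      constructor
      · rintro ⟨-, h1, ⟨Q', hQ', h2, h3, h4⟩ | ⟨h2, h3⟩⟩
        · obtain rfl := h𝒬.unique hT hQ hQ' hTQ h2
          exact ⟨⟨h3, h1⟩, fun h => h4 h.1⟩
        · exact absurd ⟨Q, hQ, hTQ⟩ h3
      · rintro ⟨⟨h1, h2⟩, h3⟩
        exact ⟨mem_univ _, h2, Or.inl ⟨Q, hQ, hTQ, h1, fun h => h3 ⟨h, h2⟩⟩⟩
    rw [h1, card_sdiff_of_subset (powersetCard_mono hTQ), card_powersetCard, card_powersetCard,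
      h𝒬.card Q hQ, hT]
    rfl
  · have h1 : (univ.filter fun p : Finset X => p.card = 2 ∧ inc 𝒬 T p) = powersetCard 2 T := by
      ext p
      rw [mem_filter, mem_powersetCard]
      constructor
      · rintro ⟨-, h1, ⟨Q', hQ', h2, h3, h4⟩ | ⟨h2, h3⟩⟩
        · exact absurd ⟨Q', hQ', h2⟩ h
        · exact ⟨h2, h1⟩
      · rintro ⟨h1, h2⟩
        exact ⟨mem_univ _, h2, Or.inr ⟨h1, h⟩⟩
    rw [h1, card_powersetCard, hT]
    rfl

open Classical in
/-- Double counting. -/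
theorem two_mul_card (p : Sub X 2) :
    (univ.filter fun T : Sub X 3 => inc 𝒬 T.1 p.1).card * 2 =
      (univ.filter fun q : Sub X 2 => q ≠ p ∧ (p.1 ∩ q.1).Nonempty).card * 1 := by
  refine card_mul_eq_card_mul (fun (T : Sub X 3) (q : Sub X 2) => inc 𝒬 T.1 q.1) ?_ ?_
  · intro T hT
    rw [mem_filter] at hT
    have h1 : bipartiteAbove (fun (T : Sub X 3) (q : Sub X 2) => inc 𝒬 T.1 q.1)
        (univ.filter fun q : Sub X 2 => q ≠ p ∧ (p.1 ∩ q.1).Nonempty) T =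
        (univ.filter fun q : Sub X 2 => inc 𝒬 T.1 q.1).erase p := by
      ext q
      rw [mem_bipartiteAbove, mem_filter, mem_erase, mem_filter]
      constructor
      · rintro ⟨⟨-, h1, h2⟩, h3⟩
        exact ⟨h1, mem_univ _, h3⟩
      · rintro ⟨h1, -, h3⟩
        exact ⟨⟨mem_univ _, h1, inc_inter h𝒬 T.2 p.2 q.2 hT.2 h3⟩, h3⟩
    rw [h1, card_erase_of_mem (by rw [mem_filter]; exact ⟨mem_univ _, hT.2⟩), card_inc h𝒬 T.2]
  · intro q hq
    rw [mem_filter] at hq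
    obtain ⟨-, h1, h2⟩ := hq
    have h3 : p.1 ≠ q.1 := fun h => h1 (Subtype.ext h.symm)
    obtain ⟨T, hT, h4, h5⟩ := inc_exists h𝒬 p.2 q.2 h3 h2
    rw [card_eq_one]
    refine ⟨⟨T, hT⟩, ?_⟩
    ext T'
    rw [mem_bipartiteBelow, mem_filter, mem_singleton]
    constructor
    · rintro ⟨⟨-, h6⟩, h7⟩
      exact Subtype.ext (inc_unique h𝒬 T'.2 hT p.2 q.2 h3 h6 h7 h4 h5)
    · rintro rfl
      exact ⟨⟨mem_univ _, h4⟩, h5⟩

end

open Classical in
theorem card_blocks {𝒬 : Set (Finset X)} (h𝒬 : Sys 𝒬) (p : Sub X 2) :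
    (univ.filter fun T : Sub X 3 => inc 𝒬 T.1 p.1).card =
      (univ.filter fun T : Sub X 3 => inc ∅ T.1 p.1).card := by
  have h1 := two_mul_card h𝒬 p
  have h2 := two_mul_card sys_empty p
  omega

theorem inc_empty (T p : Finset X) : inc ∅ T p ↔ p ⊆ T := by
  unfold inc
  simp

open Classical in
/-- Every pair is on `N - 2` blocks. -/
theorem card_blocks_eq {𝒬 : Set (Finset X)} (h𝒬 : Sys 𝒬) (p : Sub X 2) :
    (univ.filter fun T : Sub X 3 => inc 𝒬 T.1 p.1).card = Fintype.card X - 2 := by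
  have h1 : (p.1ᶜ).card = Fintype.card X - 2 := by rw [card_compl, p.2]
  rw [card_blocks h𝒬, ← h1]
  symm
  refine card_bij (fun c hc => ⟨insert c p.1, by
    rw [card_insert_of_notMem (by simpa using hc), p.2]⟩) ?_ ?_ ?_
  · intro c hc
    rw [mem_filter]
    refine ⟨mem_univ _, ?_⟩
    rw [inc_empty]
    exact subset_insert _ _
  · intro c hc d hd h
    rw [mem_compl] at hc hd
    have h2 := congrArg Subtype.val h
    dsimp only at h2
    have h3 : c ∈ insert d p.1 := h2 ▸ mem_insert_self c p.1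
    rw [mem_insert] at h3
    exact h3.resolve_right hc
  · intro T hT
    rw [mem_filter, inc_empty] at hT
    obtain ⟨a, ha, h2⟩ := (Finset.exists_eq_insert_iff (s := p.1) (t := T.1)).2
      ⟨hT.2, by rw [p.2, T.2]⟩
    exact ⟨a, by rw [mem_compl]; exact ha, Subtype.ext h2⟩

/-- The graph. -/
def Γ (𝒬 : Set (Finset X)) : SimpleGraph (Sub X 3) where
  Adj T T' := T ≠ T' ∧ ∃ p : Sub X 2, inc 𝒬 T.1 p.1 ∧ inc 𝒬 T'.1 p.1
  symm := ⟨fun _ _ h => ⟨h.1.symm, h.2.imp fun _ h' => ⟨h'.2, h'.1⟩⟩⟩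
  loopless := ⟨fun _ h => h.1 rfl⟩

open Matrix

open Classical in
/-- The incidence matrix. -/
noncomputable def W (𝒬 : Set (Finset X)) : Matrix (Sub X 2) (Sub X 3) ℝ :=
  Matrix.of fun p T => if inc 𝒬 T.1 p.1 then 1 else 0

open Classical in
theorem W_mul (𝒬 : Set (Finset X)) (p q : Sub X 2) : (W 𝒬 * (W 𝒬)ᵀ) p q =
    ((univ.filter fun T : Sub X 3 => inc 𝒬 T.1 p.1 ∧ inc 𝒬 T.1 q.1).card : ℝ) := by
  rw [Matrix.mul_apply, card_filter]
  push_cast
  refine sum_congr rfl fun T _ => ?_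
  simp only [W, Matrix.of_apply, Matrix.transpose_apply]
  by_cases h1 : inc 𝒬 T.1 p.1 <;> by_cases h2 : inc 𝒬 T.1 q.1 <;> simp [h1, h2]

open Classical in
theorem mul_W (𝒬 : Set (Finset X)) (T T' : Sub X 3) : ((W 𝒬)ᵀ * W 𝒬) T T' =
    ((univ.filter fun p : Sub X 2 => inc 𝒬 T.1 p.1 ∧ inc 𝒬 T'.1 p.1).card : ℝ) := by
  rw [Matrix.mul_apply, card_filter]
  push_cast
  refine sum_congr rfl fun p _ => ?_
  simp only [W, Matrix.of_apply, Matrix.transpose_apply]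
  by_cases h1 : inc 𝒬 T.1 p.1 <;> by_cases h2 : inc 𝒬 T'.1 p.1 <;> simp [h1, h2]

/-- The Gram matrix. -/
noncomputable def gram (𝒬 : Set (Finset X)) : Matrix (Sub X 2) (Sub X 2) ℝ := W 𝒬 * (W 𝒬)ᵀ

theorem gram_eq {𝒬 : Set (Finset X)} (h𝒬 : Sys 𝒬) : gram 𝒬 = gram ∅ := by
  classical
  ext p q
  unfold gram
  rw [W_mul, W_mul]
  by_cases hpq : p = q
  · subst hpq
    simp only [and_self]
    rw [card_blocks h𝒬 p]
  · have h3 : p.1 ≠ q.1 := fun h => hpq (Subtype.ext h)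
    have key : ∀ {𝒬' : Set (Finset X)}, Sys 𝒬' →
        (univ.filter fun T : Sub X 3 => inc 𝒬' T.1 p.1 ∧ inc 𝒬' T.1 q.1).card =
          if (p.1 ∩ q.1).Nonempty then 1 else 0 := by
      intro 𝒬' h𝒬'
      split_ifs with h
      · obtain ⟨T, hT, h4, h5⟩ := inc_exists h𝒬' p.2 q.2 h3 h
        rw [card_eq_one]
        refine ⟨⟨T, hT⟩, ?_⟩
        ext T'
        rw [mem_filter, mem_singleton]
        constructor
        · rintro ⟨-, h6, h7⟩
          exact Subtype.ext (inc_unique h𝒬' T'.2 hT p.2 q.2 h3 h6 h7 h4 h5)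
        · rintro rfl
          exact ⟨mem_univ _, h4, h5⟩
      · rw [card_eq_zero, filter_eq_empty_iff]
        rintro T - ⟨h4, h5⟩
        exact h (inc_inter h𝒬' T.2 p.2 q.2 h4 h5)
    rw [key h𝒬, key sys_empty]

open Classical in
theorem adj_eq {𝒬 : Set (Finset X)} (h𝒬 : Sys 𝒬) :
    (Γ 𝒬).adjMatrix ℝ = (W 𝒬)ᵀ * W 𝒬 - Matrix.scalar (Sub X 3) 3 := by
  ext T T'
  rw [Matrix.sub_apply, mul_W, SimpleGraph.adjMatrix_apply, Matrix.scalar_apply,
    Matrix.diagonal_apply]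
  by_cases h : T = T'
  · subst h
    simp only [SimpleGraph.irrefl, if_false, and_self, if_true]
    rw [card_inc h𝒬 T.2]
    norm_num
  · rw [if_neg h]
    by_cases h1 : ∃ p : Sub X 2, inc 𝒬 T.1 p.1 ∧ inc 𝒬 T'.1 p.1
    · rw [if_pos (show (Γ 𝒬).Adj T T' from ⟨h, h1⟩)]
      obtain ⟨p, hp1, hp2⟩ := h1
      have h2 : (univ.filter fun p : Sub X 2 => inc 𝒬 T.1 p.1 ∧ inc 𝒬 T'.1 p.1).card = 1 := by
        rw [card_eq_one]
        refine ⟨p, ?_⟩
        ext q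
        rw [mem_filter, mem_singleton]
        constructor
        · rintro ⟨-, h6, h7⟩
          by_contra hqp
          exact h (Subtype.ext (inc_unique h𝒬 T.2 T'.2 p.2 q.2
            (fun h => hqp (Subtype.ext h.symm)) hp1 h6 hp2 h7))
        · rintro rfl
          exact ⟨mem_univ _, hp1, hp2⟩
      rw [h2]
      norm_num
    · rw [if_neg (fun h2 : (Γ 𝒬).Adj T T' => h1 h2.2)]
      have h2 : (univ.filter fun p : Sub X 2 => inc 𝒬 T.1 p.1 ∧ inc 𝒬 T'.1 p.1).card = 0 := by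
        rw [card_eq_zero, filter_eq_empty_iff]
        rintro p - hp
        exact h1 ⟨p, hp⟩
      rw [h2]
      norm_num

open Classical in
/-- The characteristic polynomial does not depend on the family. -/
theorem charpoly_eq {𝒬 : Set (Finset X)} (h𝒬 : Sys 𝒬) :
    ((Γ 𝒬).adjMatrix ℝ).charpoly = ((Γ (∅ : Set (Finset X))).adjMatrix ℝ).charpoly := by
  rw [adj_eq h𝒬, adj_eq sys_empty, Matrix.charpoly_sub_scalar, Matrix.charpoly_sub_scalar]
  congr 1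
  have h1 := Matrix.charpoly_mul_comm' (W 𝒬)ᵀ (W 𝒬)
  have h2 := Matrix.charpoly_mul_comm' (W (X := X) ∅)ᵀ (W ∅)
  have h3 : W 𝒬 * (W 𝒬)ᵀ = W (X := X) ∅ * (W (X := X) ∅)ᵀ := gram_eq h𝒬
  rw [h3] at h1
  exact (Polynomial.isRegular_X_pow _).left.eq_iff.mp (h1.trans h2.symm)

theorem charpoly_eq' {𝒬 : Set (Finset X)} (h𝒬 : Sys 𝒬) (i : DecidableEq (Sub X 3))
    (i1 : DecidableRel (Γ 𝒬).Adj) (i2 : DecidableRel (Γ (∅ : Set (Finset X))).Adj) :
    ((Γ 𝒬).adjMatrix ℝ).charpoly = ((Γ (∅ : Set (Finset X))).adjMatrix ℝ).charpoly := by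
  have h := charpoly_eq h𝒬
  rw [Subsingleton.elim i (fun a b => Subtype.instDecidableEq a b)]
  rw [Subsingleton.elim i1 (fun a b => Classical.propDecidable _),
    Subsingleton.elim i2 (fun a b => Classical.propDecidable _)]
  exact h

end Pool.Agent.U29.JS
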