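import Pool.Agent.U29.JS.Enc
import Pool.Agent.Y815.GI.Red

/-!
# The reduction: computation
-/

set_option autoImplicit false
set_option linter.unusedSectionVars false

namespace Pool.Agent.U29.JS

open Pool.Agent.NPC Pool.Agent.NPC.R671
open Pool.Agent.Y815.GI (GraphIso ent valid valid_iff length_adjMatrix ent_adjMatrix bits_mem)

/-! ### The computation -/

/-- labels of vertices -/
abbrev Lt := ℕ × ℕ × ℕ

/-- the codes of the members of the family -/
def cds (M : List (List Bool)) : List (ℕ × ℕ) :=
  (List.range M.length ×ˢ List.range M.length).filter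
    (fun z => decide (z.1 = z.2) || ent M z.1 z.2)

/-- membership in the member of the family -/
def mB (z : ℕ × ℕ) (x : ℕ) : Bool :=
  (decide (z.1 = z.2) && (decide (4 * z.1 ≤ x) && decide (x < 4 * z.1 + 4))) ||
    (!(decide (z.1 = z.2)) && (decide (x = 4 * z.1) || (decide (x = 4 * z.1 + 1) ||
      (decide (x = 4 * z.2) || decide (x = 4 * z.2 + 1)))))

/-- a triple is contained in a member of the family -/
def tB (z : ℕ × ℕ) (t : Lt) : Bool := mB z t.1 && (mB z t.2.1 && mB z t.2.2)

/-- a pair is contained in a member of the family -/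
def pB (z p : ℕ × ℕ) : Bool := mB z p.1 && mB z p.2

/-- membership in a triple -/
def xB (t : Lt) (x : ℕ) : Bool := decide (x = t.1) || (decide (x = t.2.1) || decide (x = t.2.2))

/-- a pair is contained in a triple -/
def sB (t : Lt) (p : ℕ × ℕ) : Bool := xB t p.1 && xB t p.2

/-- incidence of a triple and a pair -/
def inB (M : List (List Bool)) (t : Lt) (p : ℕ × ℕ) : Bool :=
  ((cds M).any (fun z => tB z t && (pB z p && !(sB t p)))) ||
    (sB t p && !((cds M).any (fun z => tB z t)))

/-- the pairs -/
def prs (M : List (List Bool)) : List (ℕ × ℕ) :=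
  (List.range (NN M.length) ×ˢ List.range (NN M.length)).filter (fun p => !(decide (p.1 = p.2)))

/-- adjacency -/
def adB (M : List (List Bool)) (t t' : Lt) : Bool :=
  !(decide (t = t')) && ((prs M).any (fun p => inB M t p && inB M t' p))

/-- the vertices -/
def verts (M : List (List Bool)) : List Lt :=
  (List.range (NN M.length) ×ˢ (List.range (NN M.length) ×ˢ List.range (NN M.length))).filter
    (fun t => decide (t.1 < t.2.1) && decide (t.2.1 < t.2.2))

/-- the output matrix -/
def out (M : List (List Bool)) : List (List Bool) :=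
  (verts M).map (fun u => (verts M).map (fun w => adB M u w))

theorem adB_symm (M : List (List Bool)) (a b : Lt) : adB M a b = adB M b a := by
  unfold adB
  congr 2
  · exact decide_eq_decide.2 eq_comm
  · ext p
    exact Bool.and_comm _ _

theorem adB_irrefl (M : List (List Bool)) (a : Lt) : adB M a a = false := by
  unfold adB
  simp

/-! ### Polynomial time -/

section

variable {α : Type} [TEnc α]

@[fun_prop]
theorem poly_NN {f : α → ℕ} (hf : Poly f) : Poly (fun a => NN (f a)) := by
  unfold NN
  fun_prop

theorem uPoly_NN {f : α → List (List Bool)} (hf : Poly f) :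
    UPoly (fun a => NN (f a).length) :=
  ((UPoly.const 4).mul (UPoly.length hf)).add (UPoly.const 10)

@[fun_prop]
theorem poly_range_NN {f : α → List (List Bool)} (hf : Poly f) :
    Poly (fun a => List.range (NN (f a).length)) := (uPoly_NN hf).range

@[fun_prop]
theorem poly_range_len {f : α → List (List Bool)} (hf : Poly f) :
    Poly (fun a => List.range (f a).length) := Poly.range_length hf

attribute [local irreducible] NN

@[fun_prop]
theorem poly_cds {f : α → List (List Bool)} (hf : Poly f) : Poly (fun a => cds (f a)) := by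
  unfold cds
  fun_prop

@[fun_prop]
theorem poly_mB {f : α → ℕ × ℕ} {x : α → ℕ} (hf : Poly f) (hx : Poly x) :
    Poly (fun a => mB (f a) (x a)) := by
  unfold mB
  fun_prop

@[fun_prop]
theorem poly_tB {f : α → ℕ × ℕ} {x : α → Lt} (hf : Poly f) (hx : Poly x) :
    Poly (fun a => tB (f a) (x a)) := by
  unfold tB
  fun_prop

@[fun_prop]
theorem poly_pB {f : α → ℕ × ℕ} {x : α → ℕ × ℕ} (hf : Poly f) (hx : Poly x) :
    Poly (fun a => pB (f a) (x a)) := by
  unfold pB
  fun_prop

@[fun_prop]
theorem poly_xB {f : α → Lt} {x : α → ℕ} (hf : Poly f) (hx : Poly x) :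
    Poly (fun a => xB (f a) (x a)) := by
  unfold xB
  fun_prop

@[fun_prop]
theorem poly_sB {f : α → Lt} {x : α → ℕ × ℕ} (hf : Poly f) (hx : Poly x) :
    Poly (fun a => sB (f a) (x a)) := by
  unfold sB
  fun_prop

@[fun_prop]
theorem poly_inB {f : α → List (List Bool)} {t : α → Lt} {p : α → ℕ × ℕ} (hf : Poly f)
    (ht : Poly t) (hp : Poly p) : Poly (fun a => inB (f a) (t a) (p a)) := by
  unfold inB
  fun_prop

@[fun_prop]
theorem poly_prs {f : α → List (List Bool)} (hf : Poly f) : Poly (fun a => prs (f a)) := by
  unfold prs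
  fun_prop

@[fun_prop]
theorem poly_adB {f : α → List (List Bool)} {t s : α → Lt} (hf : Poly f)
    (ht : Poly t) (hs : Poly s) : Poly (fun a => adB (f a) (t a) (s a)) := by
  unfold adB
  fun_prop

@[fun_prop]
theorem poly_verts {f : α → List (List Bool)} (hf : Poly f) : Poly (fun a => verts (f a)) := by
  unfold verts
  fun_prop

@[fun_prop]
theorem poly_out {f : α → List (List Bool)} (hf : Poly f) : Poly (fun a => out (f a)) := by
  unfold out
  fun_prop

end

end Pool.Agent.U29.JS
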