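import Pool.Agent.U29.JS.Comp

/-!
# The reduction: correctness
-/

set_option autoImplicit false
set_option linter.unusedSectionVars false

namespace Pool.Agent.U29.JS

open Pool.Agent.NPC Pool.Agent.NPC.R671
open Pool.Agent.Y815.GI (GraphIso ent valid valid_iff length_adjMatrix ent_adjMatrix bits_mem)

/-- Increasing triples. -/
abbrev Inc (N : ℕ) := {t : Fin N × Fin N × Fin N // t.1 < t.2.1 ∧ t.2.1 < t.2.2}

/-- The set of an increasing triple. -/
def tau {N : ℕ} (t : Inc N) : Sub (Fin N) 3 := ⟨{t.1.1, t.1.2.1, t.1.2.2}, by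
  have h1 := t.2.1
  have h2 := t.2.2
  rw [Finset.card_insert_of_notMem, Finset.card_pair h2.ne]
  simp only [Finset.mem_insert, Finset.mem_singleton, not_or]
  exact ⟨h1.ne, (h1.trans h2).ne⟩⟩

theorem tau_inj {N : ℕ} : Function.Injective (tau (N := N)) := by
  rintro ⟨⟨a, b, c⟩, hab, hbc⟩ ⟨⟨a', b', c'⟩, hab', hbc'⟩ h
  have h1 : ({a, b, c} : Finset (Fin N)) = {a', b', c'} := congrArg Subtype.val h
  dsimp only at hab hbc hab' hbc'
  have e1 : a ∈ ({a', b', c'} : Finset (Fin N)) := by rw [← h1]; simp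
  have e2 : b ∈ ({a', b', c'} : Finset (Fin N)) := by rw [← h1]; simp
  have e3 : c ∈ ({a', b', c'} : Finset (Fin N)) := by rw [← h1]; simp
  simp only [Finset.mem_insert, Finset.mem_singleton, Fin.ext_iff] at e1 e2 e3
  rw [Fin.lt_def] at hab hbc hab' hbc'
  have h2 : (a : ℕ) = a' ∧ (b : ℕ) = b' ∧ (c : ℕ) = c' := by omega
  apply Subtype.ext
  exact Prod.ext (Fin.ext h2.1) (Prod.ext (Fin.ext h2.2.1) (Fin.ext h2.2.2))

theorem tau_surj {N : ℕ} : Function.Surjective (tau (N := N)) := by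
  intro T
  obtain ⟨x, y, z, hxy, hxz, hyz, h⟩ := Finset.card_eq_three.1 T.2
  have key : ∀ a b c : Fin N, a < b → b < c → T.1 = {a, b, c} → ∃ t, tau t = T := by
    intro a b c hab hbc h1
    exact ⟨⟨(a, b, c), hab, hbc⟩, Subtype.ext h1.symm⟩
  rcases lt_trichotomy x y with h1 | h1 | h1
  · rcases lt_trichotomy y z with h2 | h2 | h2
    · exact key x y z h1 h2 h
    · exact absurd h2 hyz
    · rcases lt_trichotomy x z with h3 | h3 | h3
      · exact key x z y h3 h2 (by rw [h]; ext; simp; tauto)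
      · exact absurd h3 hxz
      · exact key z x y h3 h1 (by rw [h]; ext; simp; tauto)
  · exact absurd h1 hxy
  · rcases lt_trichotomy y z with h2 | h2 | h2
    · rcases lt_trichotomy x z with h3 | h3 | h3
      · exact key y x z h1 h3 (by rw [h]; ext; simp; tauto)
      · exact absurd h3 hxz
      · exact key y z x h2 h3 (by rw [h]; ext; simp; tauto)
    · exact absurd h2 hyz
    · exact key z y x h2 h1 (by rw [h]; ext; simp; tauto)

/-- Increasing triples are the `3`-subsets. -/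
noncomputable def tauE (N : ℕ) : Inc N ≃ Sub (Fin N) 3 := Equiv.ofBijective tau ⟨tau_inj, tau_surj⟩

/-- the label of a triple -/
def cT {N : ℕ} (t : Inc N) : Lt := (t.1.1, t.1.2.1, t.1.2.2)

theorem cT_inj {N : ℕ} : Function.Injective (cT (N := N)) := by
  rintro ⟨⟨a, b, c⟩, h1⟩ ⟨⟨a', b', c'⟩, h2⟩ h
  simp only [cT, Prod.mk.injEq] at h
  apply Subtype.ext
  exact Prod.ext (Fin.ext h.1) (Prod.ext (Fin.ext h.2.1) (Fin.ext h.2.2))

theorem mB_iff (u w x : ℕ) : mB (u, w) x = true ↔ memQ u w x := by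
  unfold mB memQ
  simp

theorem tB_iff {n : ℕ} (u w : Fin n) (t : Inc (NN n)) :
    tB ((u : ℕ), (w : ℕ)) (cT t) = true ↔ (tau t).1 ⊆ Qf u w := by
  unfold tB
  rw [Bool.and_eq_true, Bool.and_eq_true, mB_iff, mB_iff, mB_iff]
  unfold cT tau
  dsimp only
  rw [Finset.insert_subset_iff, Finset.insert_subset_iff, Finset.singleton_subset_iff,
    mem_Qf, mem_Qf, mem_Qf]

theorem pB_iff {n : ℕ} (u w : Fin n) (x y : Fin (NN n)) :
    pB ((u : ℕ), (w : ℕ)) ((x : ℕ), (y : ℕ)) = true ↔ ({x, y} : Finset (Fin (NN n))) ⊆ Qf u w := by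
  unfold pB
  rw [Bool.and_eq_true, mB_iff, mB_iff, Finset.insert_subset_iff, Finset.singleton_subset_iff,
    mem_Qf, mem_Qf]

theorem xB_iff {N : ℕ} (t : Inc N) (x : Fin N) : xB (cT t) x = true ↔ x ∈ (tau t).1 := by
  unfold xB cT tau
  simp [Fin.ext_iff]

theorem sB_iff {N : ℕ} (t : Inc N) (x y : Fin N) :
    sB (cT t) ((x : ℕ), (y : ℕ)) = true ↔ ({x, y} : Finset (Fin N)) ⊆ (tau t).1 := by
  unfold sB
  rw [Bool.and_eq_true, xB_iff, xB_iff, Finset.insert_subset_iff, Finset.singleton_subset_iff]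

theorem any_cds {n : ℕ} (X : SimpleGraph (Fin n)) (f : ℕ × ℕ → Bool)
    (R : Finset (Fin (NN n)) → Prop) (h : ∀ u w : Fin n, f ((u : ℕ), (w : ℕ)) = true ↔ R (Qf u w)) :
    (cds (adjMatrix X)).any f = true ↔ ∃ Q ∈ fam X, R Q := by
  rw [List.any_eq_true]
  unfold cds
  rw [length_adjMatrix]
  constructor
  · rintro ⟨⟨a, b⟩, h1, h2⟩
    simp only [List.mem_filter, List.mem_product, List.mem_range, Bool.or_eq_true,
      decide_eq_true_eq] at h1
    obtain ⟨⟨ha, hb⟩, h3⟩ := h1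
    refine ⟨Qf ⟨a, ha⟩ ⟨b, hb⟩, ⟨⟨a, ha⟩, ⟨b, hb⟩, ?_, rfl⟩, (h ⟨a, ha⟩ ⟨b, hb⟩).1 h2⟩
    rcases h3 with h3 | h3
    · exact Or.inl (Fin.ext h3)
    · exact Or.inr ((ent_adjMatrix X ⟨a, ha⟩ ⟨b, hb⟩).1 h3)
  · rintro ⟨Q, ⟨u, w, huw, rfl⟩, h2⟩
    refine ⟨((u : ℕ), (w : ℕ)), ?_, (h u w).2 h2⟩
    simp only [List.mem_filter, List.mem_product, List.mem_range, Bool.or_eq_true,
      decide_eq_true_eq]
    refine ⟨⟨u.2, w.2⟩, ?_⟩
    rcases huw with h3 | h3
    · exact Or.inl (congrArg Fin.val h3)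
    · exact Or.inr ((ent_adjMatrix X u w).2 h3)

theorem inB_iff {n : ℕ} (X : SimpleGraph (Fin n)) (t : Inc (NN n)) (x y : Fin (NN n)) :
    inB (adjMatrix X) (cT t) ((x : ℕ), (y : ℕ)) = true ↔
      inc (fam X) (tau t).1 ({x, y} : Finset (Fin (NN n))) := by
  unfold inB inc
  have e1 := any_cds X (fun z => tB z (cT t)) (fun Q => (tau t).1 ⊆ Q) (fun u w => tB_iff u w t)
  have e2 := any_cds X (fun z => tB z (cT t) && (pB z ((x : ℕ), (y : ℕ)) &&
    !(sB (cT t) ((x : ℕ), (y : ℕ))))) (fun Q => (tau t).1 ⊆ Q ∧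
      ({x, y} : Finset (Fin (NN n))) ⊆ Q ∧ ¬ ({x, y} : Finset (Fin (NN n))) ⊆ (tau t).1)
    (fun u w => by
      rw [Bool.and_eq_true, Bool.and_eq_true, Bool.not_eq_true', ← Bool.not_eq_true, tB_iff,
        pB_iff, sB_iff])
  rw [Bool.or_eq_true, Bool.and_eq_true, Bool.not_eq_true', ← Bool.not_eq_true, e1, sB_iff, e2]

theorem adB_tau {n : ℕ} (X : SimpleGraph (Fin n)) (s t : Inc (NN n)) :
    adB (adjMatrix X) (cT s) (cT t) = true ↔ (Γ (fam X)).Adj (tau s) (tau t) := by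
  show _ ↔ (tau s ≠ tau t ∧ ∃ p : Sub (Fin (NN n)) 2, inc (fam X) (tau s).1 p.1 ∧
    inc (fam X) (tau t).1 p.1)
  unfold adB
  rw [Bool.and_eq_true, Bool.not_eq_true', decide_eq_false_iff_not, cT_inj.eq_iff,
    tau_inj.ne_iff, List.any_eq_true]
  refine and_congr Iff.rfl ⟨?_, ?_⟩
  · rintro ⟨⟨a, b⟩, h1, h2⟩
    unfold prs at h1
    rw [length_adjMatrix] at h1
    simp only [List.mem_filter, List.mem_product, List.mem_range, Bool.not_eq_true',
      decide_eq_false_iff_not] at h1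
    obtain ⟨⟨ha, hb⟩, hab⟩ := h1
    rw [Bool.and_eq_true] at h2
    refine ⟨⟨{⟨a, ha⟩, ⟨b, hb⟩}, Finset.card_pair (fun h => hab (congrArg Fin.val h))⟩,
      (inB_iff X s ⟨a, ha⟩ ⟨b, hb⟩).1 h2.1, (inB_iff X t ⟨a, ha⟩ ⟨b, hb⟩).1 h2.2⟩
  · rintro ⟨p, h1, h2⟩
    obtain ⟨x, y, hxy, hp⟩ := Finset.card_eq_two.1 p.2
    rw [hp] at h1 h2
    refine ⟨((x : ℕ), (y : ℕ)), ?_, ?_⟩
    · unfold prs
      rw [length_adjMatrix]
      simp only [List.mem_filter, List.mem_product, List.mem_range, Bool.not_eq_true',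
        decide_eq_false_iff_not]
      exact ⟨⟨x.2, y.2⟩, fun h => hxy (Fin.ext h)⟩
    · rw [Bool.and_eq_true]
      exact ⟨(inB_iff X s x y).2 h1, (inB_iff X t x y).2 h2⟩

/-- the label of a vertex -/
noncomputable def code {n : ℕ} (T : Sub (Fin (NN n)) 3) : Lt := cT ((tauE (NN n)).symm T)

theorem code_inj {n : ℕ} : Function.Injective (code (n := n)) :=
  cT_inj.comp (tauE (NN n)).symm.injective

theorem adB_code {n : ℕ} (X : SimpleGraph (Fin n)) (S T : Sub (Fin (NN n)) 3) :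
    adB (adjMatrix X) (code S) (code T) = true ↔ (Γ (fam X)).Adj S T := by
  unfold code
  rw [adB_tau]
  have h : ∀ S : Sub (Fin (NN n)) 3, tau ((tauE (NN n)).symm S) = S := fun S =>
    (tauE (NN n)).apply_symm_apply S
  rw [h, h]

theorem mem_verts {n : ℕ} (X : SimpleGraph (Fin n)) (z : Lt) :
    z ∈ verts (adjMatrix X) ↔ ∃ T : Sub (Fin (NN n)) 3, code T = z := by
  unfold verts
  rw [length_adjMatrix]
  obtain ⟨a, b, c⟩ := z
  simp only [List.mem_filter, List.mem_product, List.mem_range, Bool.and_eq_true,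
    decide_eq_true_eq]
  constructor
  · rintro ⟨⟨ha, hb, hc⟩, h1, h2⟩
    refine ⟨tauE (NN n) ⟨(⟨a, ha⟩, ⟨b, hb⟩, ⟨c, hc⟩), h1, h2⟩, ?_⟩
    unfold code
    rw [Equiv.symm_apply_apply]
    rfl
  · rintro ⟨T, hT⟩
    unfold code at hT
    obtain ⟨⟨⟨x, y, z⟩, h1, h2⟩, h3⟩ : ∃ t, t = (tauE (NN n)).symm T := ⟨_, rfl⟩
    rw [← h3] at hT
    simp only [cT, Prod.mk.injEq] at hT
    obtain ⟨rfl, rfl, rfl⟩ := hT
    exact ⟨⟨x.2, y.2, z.2⟩, h1, h2⟩

theorem nodup_verts (M : List (List Bool)) : (verts M).Nodup :=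
  (List.Nodup.product List.nodup_range (List.Nodup.product List.nodup_range
    List.nodup_range)).filter _

/-- The output is the adjacency matrix of a graph isomorphic to the construction. -/
theorem out_eq {n : ℕ} (X : SimpleGraph (Fin n)) : ∃ (N : ℕ) (X' : SimpleGraph (Fin N)),
    adjMatrix X' = out (adjMatrix X) ∧ Nonempty (X' ≃g Γ (fam X)) := by
  obtain ⟨e, he⟩ := exists_equiv (verts (adjMatrix X)) (nodup_verts _) code
    code_inj (mem_verts X)
  refine ⟨_, listGraph (verts (adjMatrix X)) (adB (adjMatrix X)) (adB_symm _) (adB_irrefl _),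
    ?_, ⟨⟨e, ?_⟩⟩⟩
  · rw [adjMatrix_listGraph]
    rfl
  · intro a b
    rw [← adB_code, he, he]
    exact Iff.rfl

end Pool.Agent.U29.JS
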