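import Pool.Agent.U29.JS.Basic

/-!
# Decoding

For `N ≥ 10`, the graphs `Γ 𝒬` and `Γ 𝒬'` are isomorphic iff some permutation of the ground set maps
`𝒬` to `𝒬'`.
-/

set_option autoImplicit false
set_option linter.unusedSectionVars false

namespace Pool.Agent.U29.JS

open Finset

variable {X : Type*} [Fintype X] [DecidableEq X]

open Classical in
/-- Every clique with at least eight vertices consists of blocks through a pair. -/
theorem exists_pair {𝒬 : Set (Finset X)} (h𝒬 : Sys 𝒬) {K : Finset (Sub X 3)} (hK : 8 ≤ K.card)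
    (hc : ∀ T ∈ K, ∀ T' ∈ K, T ≠ T' → (Γ 𝒬).Adj T T') :
    ∃ p : Sub X 2, ∀ T ∈ K, inc 𝒬 T.1 p.1 := by
  obtain ⟨B, hB⟩ := card_pos.1 (show 0 < K.card by omega)
  have h1 : ∀ T : Sub X 3, ∃ p : Sub X 2, T ∈ K → T ≠ B → inc 𝒬 B.1 p.1 ∧ inc 𝒬 T.1 p.1 := by
    intro T
    by_cases h : T ∈ K ∧ T ≠ B
    · obtain ⟨-, p, h2⟩ := hc B hB T h.1 h.2.symm
      exact ⟨p, fun _ _ => h2⟩
    · have h3 := card_inc h𝒬 B.2
      obtain ⟨p, _⟩ := card_pos.1 (show 0 < (univ.filter fun p : Sub X 2 => inc 𝒬 B.1 p.1).card by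
        omega)
      exact ⟨p, fun a b => absurd ⟨a, b⟩ h⟩
  choose g hg using h1
  have h2 : ∀ T ∈ K.erase B, g T ∈ (univ.filter fun p : Sub X 2 => inc 𝒬 B.1 p.1) := by
    intro T hT
    rw [mem_erase] at hT
    rw [mem_filter]
    exact ⟨mem_univ _, (hg T hT.2 hT.1).1⟩
  have h3 : (univ.filter fun p : Sub X 2 => inc 𝒬 B.1 p.1).card * 2 < (K.erase B).card := by
    rw [card_inc h𝒬 B.2, card_erase_of_mem hB]
    omega
  obtain ⟨p, hp, h4⟩ := exists_lt_card_fiber_of_mul_lt_card_of_maps_to h2 h3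
  rw [mem_filter] at hp
  refine ⟨p, ?_⟩
  have h5 : 3 < (K.filter fun T => inc 𝒬 T.1 p.1).card := by
    have h6 : insert B ((K.erase B).filter fun T => g T = p) ⊆ K.filter fun T => inc 𝒬 T.1 p.1 := by
      intro T hT
      rw [mem_insert, mem_filter, mem_erase] at hT
      rw [mem_filter]
      rcases hT with rfl | ⟨⟨h7, h8⟩, h9⟩
      · exact ⟨hB, hp.2⟩
      · exact ⟨h8, h9 ▸ (hg T h8 h7).2⟩
    have h7 := card_le_card h6
    rw [card_insert_of_notMem (by simp)] at h7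
    omega
  intro T₀ hT₀
  by_contra h0
  have h6 : ∀ T : Sub X 3, ∃ q : Sub X 2, T ∈ K → inc 𝒬 T.1 p.1 →
      inc 𝒬 T₀.1 q.1 ∧ inc 𝒬 T.1 q.1 := by
    intro T
    by_cases h : T ∈ K ∧ inc 𝒬 T.1 p.1
    · have hne : T₀ ≠ T := fun h' => h0 (h' ▸ h.2)
      obtain ⟨-, q, h2⟩ := hc T₀ hT₀ T h.1 hne
      exact ⟨q, fun _ _ => h2⟩
    · exact ⟨p, fun a b => absurd ⟨a, b⟩ h⟩
  choose k hk using h6
  have h7 : (K.filter fun T => inc 𝒬 T.1 p.1).card ≤
      (univ.filter fun q : Sub X 2 => inc 𝒬 T₀.1 q.1).card := by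
    refine card_le_card_of_injOn k ?_ ?_
    · intro T hT
      rw [mem_coe, mem_filter] at hT
      rw [mem_coe, mem_filter]
      exact ⟨mem_univ _, (hk T hT.1 hT.2).1⟩
    · intro T hT T' hT' h
      rw [mem_coe, mem_filter] at hT hT'
      by_contra hne
      have h8 := hk T hT.1 hT.2
      have h9 := hk T' hT'.1 hT'.2
      rw [← h] at h9
      refine hne (Subtype.ext (inc_unique h𝒬 T.2 T'.2 p.2 (k T).2 ?_ hT.2 h8.2 hT'.2 h9.2))
      intro h10
      exact h0 (h10 ▸ h8.1)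
  rw [card_inc h𝒬 T₀.2] at h7
  omega

/-- An isomorphism induces a map of pairs. -/
theorem exists_map {𝒬 𝒬' : Set (Finset X)} (h𝒬 : Sys 𝒬) (h𝒬' : Sys 𝒬')
    (hX : 10 ≤ Fintype.card X) (f : Γ 𝒬 ≃g Γ 𝒬') :
    ∃ ψ : Sub X 2 → Sub X 2, ∀ (p : Sub X 2) (T : Sub X 3), inc 𝒬 T.1 p.1 →
      inc 𝒬' (f T).1 (ψ p).1 := by
  classical
  have h1 : ∀ p : Sub X 2, ∃ q : Sub X 2, ∀ T : Sub X 3, inc 𝒬 T.1 p.1 →
      inc 𝒬' (f T).1 q.1 := by
    intro p
    obtain ⟨q, hq⟩ := exists_pair h𝒬'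
      (K := (univ.filter fun T : Sub X 3 => inc 𝒬 T.1 p.1).map f.toEquiv.toEmbedding) (by
        rw [card_map, card_blocks_eq h𝒬]
        omega) (by
        intro T hT T' hT' hne
        rw [mem_map] at hT hT'
        obtain ⟨S, hS, rfl⟩ := hT
        obtain ⟨S', hS', rfl⟩ := hT'
        rw [mem_filter] at hS hS'
        show (Γ 𝒬').Adj (f S) (f S')
        rw [f.map_adj_iff]
        exact ⟨fun h => hne (by rw [h]), p, hS.2, hS'.2⟩)
    refine ⟨q, fun T hT => hq (f T) ?_⟩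
    rw [mem_map]
    exact ⟨T, by rw [mem_filter]; exact ⟨mem_univ _, hT⟩, rfl⟩
  choose ψ hψ using h1
  exact ⟨ψ, hψ⟩

theorem eq_of_forall_inc {𝒬 : Set (Finset X)} (h𝒬 : Sys 𝒬) (hX : 10 ≤ Fintype.card X)
    {p q : Sub X 2} (h : ∀ T : Sub X 3, inc 𝒬 T.1 p.1 → inc 𝒬 T.1 q.1) : p = q := by
  classical
  by_contra hne
  have h1 := card_blocks_eq h𝒬 p
  have h2 : 1 < (univ.filter fun T : Sub X 3 => inc 𝒬 T.1 p.1).card := by omega
  obtain ⟨T, hT, T', hT', h3⟩ := one_lt_card.1 h2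
  rw [mem_filter] at hT hT'
  exact h3 (Subtype.ext (inc_unique h𝒬 T.2 T'.2 p.2 q.2 (fun h => hne (Subtype.ext h)) hT.2
    (h T hT.2) hT'.2 (h T' hT'.2)))

/-- An isomorphism induces a bijection of pairs. -/
theorem exists_equiv_pairs {𝒬 𝒬' : Set (Finset X)} (h𝒬 : Sys 𝒬) (h𝒬' : Sys 𝒬')
    (hX : 10 ≤ Fintype.card X) (f : Γ 𝒬 ≃g Γ 𝒬') :
    ∃ ψ : Sub X 2 ≃ Sub X 2, ∀ (p : Sub X 2) (T : Sub X 3), inc 𝒬 T.1 p.1 ↔
      inc 𝒬' (f T).1 (ψ p).1 := by
  obtain ⟨ψ, hψ⟩ := exists_map h𝒬 h𝒬' hX f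
  obtain ⟨χ, hχ⟩ := exists_map h𝒬' h𝒬 hX f.symm
  have h1 : ∀ p, χ (ψ p) = p := fun p => (eq_of_forall_inc h𝒬 hX fun T hT => by
    have := hχ _ _ (hψ p T hT)
    rwa [f.symm_apply_apply] at this).symm
  have h2 : ∀ p, ψ (χ p) = p := fun p => (eq_of_forall_inc h𝒬' hX fun T hT => by
    have := hψ _ _ (hχ p T hT)
    rwa [f.apply_symm_apply] at this).symm
  refine ⟨⟨ψ, χ, h1, h2⟩, fun p T => ⟨hψ p T, fun h => ?_⟩⟩
  have h3 := hχ _ _ h
  rw [f.symm_apply_apply] at h3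
  rwa [show ({ toFun := ψ, invFun := χ, left_inv := h1, right_inv := h2 } :
    Sub X 2 ≃ Sub X 2) p = ψ p from rfl, h1] at h3

/-- Pairwise intersecting pairs. -/
theorem exists_common {F : Finset (Finset X)} (h2 : ∀ p ∈ F, p.card = 2) (h4 : 4 ≤ F.card)
    (hI : ∀ p ∈ F, ∀ q ∈ F, p ≠ q → (p ∩ q).Nonempty) : ∃ c, ∀ p ∈ F, c ∈ p := by
  by_contra hcon
  push Not at hcon
  have hI' : ∀ p ∈ F, ∀ q ∈ F, (p ∩ q).Nonempty := by
    intro p hp q hq
    by_cases h : p = q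
    · subst h
      rw [inter_self, ← card_pos, h2 p hp]
      norm_num
    · exact hI p hp q hq h
  obtain ⟨p, hp⟩ := card_pos.1 (show 0 < F.card by omega)
  obtain ⟨x, y, hxy, hpe⟩ := card_eq_two.1 (h2 p hp)
  obtain ⟨q, hq, hxq⟩ := hcon x
  obtain ⟨r, hr, hyr⟩ := hcon y
  have hyq : y ∈ q := by
    obtain ⟨c, hc⟩ := hI' p hp q hq
    rw [mem_inter, hpe, mem_insert, mem_singleton] at hc
    rcases hc with ⟨rfl | rfl, h⟩
    · exact absurd h hxq
    · exact h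
  have hxr : x ∈ r := by
    obtain ⟨c, hc⟩ := hI' p hp r hr
    rw [mem_inter, hpe, mem_insert, mem_singleton] at hc
    rcases hc with ⟨rfl | rfl, h⟩
    · exact h
    · exact absurd h hyr
  obtain ⟨z, hz⟩ := hI' q hq r hr
  rw [mem_inter] at hz
  have hzx : z ≠ x := fun h => hxq (h ▸ hz.1)
  have hzy : z ≠ y := fun h => hyr (h ▸ hz.2)
  have two : ∀ {s : Finset X} {a b : X}, s.card = 2 → a ≠ b → a ∈ s → b ∈ s → s = {a, b} := by
    intro s a b hs hab ha hb
    refine (eq_of_subset_of_card_le ?_ ?_).symm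
    · intro c hc
      rw [mem_insert, mem_singleton] at hc
      rcases hc with rfl | rfl <;> assumption
    · rw [hs, card_pair hab]
  have hqe : q = {y, z} := two (h2 q hq) hzy.symm hyq hz.1
  have hre : r = {x, z} := two (h2 r hr) hzx.symm hxr hz.2
  have hF : F ⊆ {{x, y}, {y, z}, {x, z}} := by
    intro s hs
    rw [mem_insert, mem_insert, mem_singleton]
    have e1 := hI' s hs p hp
    have e2 := hI' s hs q hq
    have e3 := hI' s hs r hr
    rw [hpe] at e1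
    rw [hqe] at e2
    rw [hre] at e3
    obtain ⟨a, ha⟩ := e1
    obtain ⟨b, hb⟩ := e2
    obtain ⟨c, hc⟩ := e3
    rw [mem_inter, mem_insert, mem_singleton] at ha hb hc
    obtain ⟨ha, ha'⟩ := ha
    obtain ⟨hb, hb'⟩ := hb
    obtain ⟨hc, hc'⟩ := hc
    have hs2 := h2 s hs
    rcases ha' with rfl | rfl
    · rcases hb' with rfl | rfl
      · exact Or.inl (two hs2 hxy ha hb)
      · exact Or.inr (Or.inr (two hs2 hzx.symm ha hb))
    · rcases hc' with rfl | rfl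
      · exact Or.inl (two hs2 hxy hc ha)
      · exact Or.inr (Or.inl (two hs2 hzy.symm ha hc))
  have h5 := card_le_card hF
  have h6 := card_le_three (a := ({x, y} : Finset X)) (b := {y, z}) (c := {x, z})
  omega

/-- The pair `{a, b}`. -/
def pr (a b : X) (h : a ≠ b) : Sub X 2 := ⟨{a, b}, card_pair h⟩

/-- A bijection of pairs which preserves disjointness comes from a permutation. -/
theorem exists_perm (hX : 10 ≤ Fintype.card X) (ψ : Sub X 2 ≃ Sub X 2)
    (hψ : ∀ p q : Sub X 2, (p.1 ∩ q.1).Nonempty ↔ ((ψ p).1 ∩ (ψ q).1).Nonempty) :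
    ∃ π : Equiv.Perm X, ∀ p : Sub X 2, (ψ p).1 = p.1.map π.toEmbedding := by
  classical
  have h1 : ∀ a : X, ∃ c : X, ∀ p : Sub X 2, a ∈ p.1 → c ∈ (ψ p).1 := by
    intro a
    have h2 : ∃ c, ∀ q ∈ ((univ.filter fun p : Sub X 2 => a ∈ p.1).image fun p => (ψ p).1),
        c ∈ q := by
      refine exists_common ?_ ?_ ?_
      · intro q hq
        rw [mem_image] at hq
        obtain ⟨p, -, rfl⟩ := hq
        exact (ψ p).2
      · rw [card_image_of_injective _ (fun p q h => ψ.injective (Subtype.ext h))]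
        have h3 : (univ.erase a : Finset X).card ≤ (univ.filter fun p : Sub X 2 => a ∈ p.1).card := by
          have h5 : ((univ.erase a : Finset X).attach.image fun b =>
              pr a b.1 (mem_erase.1 b.2).1.symm) ⊆ (univ.filter fun p : Sub X 2 => a ∈ p.1) := by
            intro q hq
            rw [mem_image] at hq
            obtain ⟨b, -, rfl⟩ := hq
            rw [mem_filter]
            exact ⟨mem_univ _, mem_insert_self _ _⟩
          have h6 := card_le_card h5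
          rw [card_image_of_injective, card_attach] at h6
          · exact h6
          · intro b c hbc
            have h7 := congrArg Subtype.val hbc
            have h8 : b.1 ∈ ({a, c.1} : Finset X) := by
              have : ({a, b.1} : Finset X) = {a, c.1} := h7
              rw [← this]
              simp
            rw [mem_insert, mem_singleton] at h8
            exact Subtype.ext (h8.resolve_left (mem_erase.1 b.2).1)
        rw [card_erase_of_mem (mem_univ _), card_univ] at h3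
        omega
      · intro q hq q' hq' _
        rw [mem_image] at hq hq'
        obtain ⟨p, hp, rfl⟩ := hq
        obtain ⟨p', hp', rfl⟩ := hq'
        rw [mem_filter] at hp hp'
        rw [← hψ]
        exact ⟨a, mem_inter.2 ⟨hp.2, hp'.2⟩⟩
    obtain ⟨c, hc⟩ := h2
    refine ⟨c, fun p hp => hc _ ?_⟩
    rw [mem_image]
    exact ⟨p, by rw [mem_filter]; exact ⟨mem_univ _, hp⟩, rfl⟩
  choose π hπ using h1
  have hinj : Function.Injective π := by
    intro a b hab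
    by_contra hne
    obtain ⟨d, hd⟩ : ∃ d, d ∉ ({a, b} : Finset X) := by
      by_contra h
      push Not at h
      have := card_le_card (show (univ : Finset X) ⊆ {a, b} from fun x _ => h x)
      rw [card_univ, card_pair hne] at this
      omega
    obtain ⟨e, he⟩ : ∃ e, e ∉ ({a, b, d} : Finset X) := by
      by_contra h
      push Not at h
      have := card_le_card (show (univ : Finset X) ⊆ {a, b, d} from fun x _ => h x)
      have h3 := card_le_three (a := a) (b := b) (c := d)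
      rw [card_univ] at this
      omega
    simp only [mem_insert, mem_singleton, not_or] at hd he
    have h2 := hπ a (pr a d (fun h => hd.1 h.symm)) (by simp [pr])
    have h3 := hπ b (pr b e (fun h => he.2.1 h.symm)) (by simp [pr])
    rw [← hab] at h3
    have h4 := (hψ (pr a d (fun h => hd.1 h.symm)) (pr b e (fun h => he.2.1 h.symm))).2
      ⟨π a, mem_inter.2 ⟨h2, h3⟩⟩
    obtain ⟨x, hx⟩ := h4
    simp only [pr, mem_inter, mem_insert, mem_singleton] at hx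
    obtain ⟨rfl | rfl, h | h⟩ := hx
    · exact hne h
    · exact he.1 h.symm
    · exact hd.2 h
    · exact he.2.2 h.symm
  refine ⟨Equiv.ofBijective π (Finite.injective_iff_bijective.1 hinj), fun p => ?_⟩
  symm
  refine eq_of_subset_of_card_le ?_ ?_
  · intro x hx
    rw [mem_map] at hx
    obtain ⟨a, ha, rfl⟩ := hx
    exact hπ a p ha
  · rw [card_map, (ψ p).2, p.2]

/-- An isomorphism of the graphs induces a permutation of the ground set. -/
theorem exists_perm_of_iso {𝒬 𝒬' : Set (Finset X)} (h𝒬 : Sys 𝒬) (h𝒬' : Sys 𝒬')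
    (hX : 10 ≤ Fintype.card X) (f : Γ 𝒬 ≃g Γ 𝒬') :
    ∃ π : Equiv.Perm X, ∀ (p : Finset X) (T : Sub X 3), p.card = 2 →
      (inc 𝒬 T.1 p ↔ inc 𝒬' (f T).1 (p.map π.toEmbedding)) := by
  obtain ⟨ψ, hψ⟩ := exists_equiv_pairs h𝒬 h𝒬' hX f
  obtain ⟨π, hπ⟩ := exists_perm hX ψ (by
    intro p q
    by_cases hpq : p = q
    · subst hpq
      rw [inter_self, inter_self, ← card_pos, ← card_pos, p.2, (ψ p).2]
    · have h3 : p.1 ≠ q.1 := fun h => hpq (Subtype.ext h)
      have h4 : (ψ p).1 ≠ (ψ q).1 := fun h => hpq (ψ.injective (Subtype.ext h))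
      constructor
      · intro h
        obtain ⟨T, hT, h5, h6⟩ := inc_exists h𝒬 p.2 q.2 h3 h
        exact inc_inter h𝒬' (f ⟨T, hT⟩).2 (ψ p).2 (ψ q).2 ((hψ p ⟨T, hT⟩).1 h5)
          ((hψ q ⟨T, hT⟩).1 h6)
      · intro h
        obtain ⟨T, hT, h5, h6⟩ := inc_exists h𝒬' (ψ p).2 (ψ q).2 h4 h
        have h7 : f (f.symm ⟨T, hT⟩) = ⟨T, hT⟩ := f.apply_symm_apply _
        refine inc_inter h𝒬 (f.symm ⟨T, hT⟩).2 p.2 q.2 ((hψ p _).2 ?_) ((hψ q _).2 ?_)
        · rw [h7]; exact h5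
        · rw [h7]; exact h6)
  refine ⟨π, fun p T hp => ?_⟩
  rw [← hπ ⟨p, hp⟩]
  exact hψ ⟨p, hp⟩ T

/-- The permutation maps the members of the family to members of the family. -/
theorem map_mem {𝒬 𝒬' : Set (Finset X)} (h𝒬 : Sys 𝒬) (h𝒬' : Sys 𝒬')
    {f : Sub X 3 → Sub X 3} {π : Equiv.Perm X} (h : ∀ (p : Finset X) (T : Sub X 3), p.card = 2 →
      inc 𝒬 T.1 p → inc 𝒬' (f T).1 (p.map π.toEmbedding)) {Q : Finset X} (hQ : Q ∈ 𝒬) :
    Q.map π.toEmbedding ∈ 𝒬' := by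
  have hQ4 := h𝒬.card Q hQ
  obtain ⟨a, ha⟩ := card_pos.1 (show 0 < Q.card by omega)
  have hT : (Q.erase a).card = 3 := by rw [card_erase_of_mem ha, hQ4]
  have h1 : ∀ b ∈ Q.erase a, inc 𝒬' (f ⟨Q.erase a, hT⟩).1 {π a, π b} := by
    intro b hb
    rw [mem_erase] at hb
    have h2 := h {a, b} ⟨Q.erase a, hT⟩ (card_pair hb.1.symm) (Or.inl ⟨Q, hQ, erase_subset _ _, by
      intro x hx
      rw [mem_insert, mem_singleton] at hx
      rcases hx with rfl | rfl
      · exact ha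
      · exact hb.2, fun h => (mem_erase.1 (h (mem_insert_self a _))).1 rfl⟩)
    rw [map_insert, map_singleton] at h2
    exact h2
  have hne : (Q.erase a).Nonempty := card_pos.1 (by omega)
  obtain ⟨b, hb⟩ := hne
  have hsub : ∀ S : Finset X, (∀ b ∈ Q.erase a, ({π a, π b} : Finset X) ⊆ S) →
      Q.map π.toEmbedding ⊆ S := by
    intro S hS x hx
    rw [mem_map] at hx
    obtain ⟨y, hy, rfl⟩ := hx
    by_cases hya : y = a
    · subst hya
      exact hS b hb (mem_insert_self _ _)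
    · exact hS y (mem_erase.2 ⟨hya, hy⟩) (by simp)
  by_cases h3 : ∃ Q' ∈ 𝒬', (f ⟨Q.erase a, hT⟩).1 ⊆ Q'
  · obtain ⟨Q', hQ', h4⟩ := h3
    have h5 : Q.map π.toEmbedding ⊆ Q' := by
      refine hsub Q' fun c hc => ?_
      rcases h1 c hc with ⟨Q'', hQ'', h6, h7, -⟩ | ⟨h6, h7⟩
      · obtain rfl := h𝒬'.unique (f ⟨Q.erase a, hT⟩).2 hQ' hQ'' h4 h6
        exact h7
      · exact absurd ⟨Q', hQ', h4⟩ h7
    rw [eq_of_subset_of_card_le h5 (by rw [card_map, hQ4, h𝒬'.card Q' hQ'])]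
    exact hQ'
  · exfalso
    have h5 : Q.map π.toEmbedding ⊆ (f ⟨Q.erase a, hT⟩).1 := by
      refine hsub _ fun c hc => ?_
      rcases h1 c hc with ⟨Q'', hQ'', h6, h7, -⟩ | ⟨h6, h7⟩
      · exact absurd ⟨Q'', hQ'', h6⟩ h3
      · exact h6
    have h6 := card_le_card h5
    rw [card_map, hQ4, (f ⟨Q.erase a, hT⟩).2] at h6
    omega

theorem inc_map {𝒬 𝒬' : Set (Finset X)} (π : Equiv.Perm X)
    (h : ∀ Q, Q ∈ 𝒬 ↔ Q.map π.toEmbedding ∈ 𝒬') (T p : Finset X) :
    inc 𝒬 T p ↔ inc 𝒬' (T.map π.toEmbedding) (p.map π.toEmbedding) := by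
  have h1 : ∀ R : Finset X → Prop, (∃ Q ∈ 𝒬, R (Q.map π.toEmbedding)) ↔ ∃ Q ∈ 𝒬', R Q := by
    intro R
    constructor
    · rintro ⟨Q, hQ, h2⟩
      exact ⟨_, (h Q).1 hQ, h2⟩
    · rintro ⟨Q, hQ, h2⟩
      have h3 : (Q.map π.symm.toEmbedding).map π.toEmbedding = Q := by
        rw [map_map]
        ext x
        simp
      refine ⟨Q.map π.symm.toEmbedding, ?_, ?_⟩
      · rw [h, h3]; exact hQ
      · rw [h3]; exact h2
  unfold inc
  rw [← h1 fun Q => T.map π.toEmbedding ⊆ Q ∧ p.map π.toEmbedding ⊆ Q ∧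
    ¬ p.map π.toEmbedding ⊆ T.map π.toEmbedding, ← h1 fun Q => T.map π.toEmbedding ⊆ Q]
  simp only [map_subset_map]

/-- **Decoding.** -/
theorem iso_iff {𝒬 𝒬' : Set (Finset X)} (h𝒬 : Sys 𝒬) (h𝒬' : Sys 𝒬')
    (hX : 10 ≤ Fintype.card X) : Nonempty (Γ 𝒬 ≃g Γ 𝒬') ↔
    ∃ π : Equiv.Perm X, ∀ Q, Q ∈ 𝒬 ↔ Q.map π.toEmbedding ∈ 𝒬' := by
  constructor
  · rintro ⟨f⟩
    obtain ⟨π, hπ⟩ := exists_perm_of_iso h𝒬 h𝒬' hX f
    have hcancel : ∀ p : Finset X, (p.map π.symm.toEmbedding).map π.toEmbedding = p := by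
      intro p
      rw [map_map]
      ext x
      simp
    have hcancel' : ∀ p : Finset X, (p.map π.toEmbedding).map π.symm.toEmbedding = p := by
      intro p
      rw [map_map]
      ext x
      simp
    refine ⟨π, fun Q => ⟨fun hQ => map_mem h𝒬 h𝒬' (f := f) (fun p T hp => (hπ p T hp).1) hQ,
      fun hQ => ?_⟩⟩
    have h1 := map_mem h𝒬' h𝒬 (f := f.symm) (π := π.symm) (fun p T hp h => by
      have h2 := (hπ (p.map π.symm.toEmbedding) (f.symm T) (by rw [card_map, hp])).2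
      rw [hcancel, f.apply_symm_apply] at h2
      exact h2 h) hQ
    rwa [hcancel'] at h1
  · rintro ⟨π, hπ⟩
    have hbij : ∀ k : ℕ, ∃ e : Sub X k ≃ Sub X k, ∀ s, (e s).1 = s.1.map π.toEmbedding := by
      intro k
      refine ⟨⟨fun s => ⟨s.1.map π.toEmbedding, by rw [card_map, s.2]⟩,
        fun s => ⟨s.1.map π.symm.toEmbedding, by rw [card_map, s.2]⟩, ?_, ?_⟩, fun s => rfl⟩
      · intro s
        apply Subtype.ext
        show (s.1.map π.toEmbedding).map π.symm.toEmbedding = s.1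
        rw [map_map]
        ext x
        simp
      · intro s
        apply Subtype.ext
        show (s.1.map π.symm.toEmbedding).map π.toEmbedding = s.1
        rw [map_map]
        ext x
        simp
    obtain ⟨e3, he3⟩ := hbij 3
    obtain ⟨e2, he2⟩ := hbij 2
    refine ⟨⟨e3, fun {T T'} => ?_⟩⟩
    show (e3 T ≠ e3 T' ∧ ∃ p : Sub X 2, inc 𝒬' (e3 T).1 p.1 ∧ inc 𝒬' (e3 T').1 p.1) ↔
      (T ≠ T' ∧ ∃ p : Sub X 2, inc 𝒬 T.1 p.1 ∧ inc 𝒬 T'.1 p.1)
    rw [e3.injective.ne_iff, ← e2.exists_congr_right]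
    simp only [he3, he2, ← inc_map π hπ]

end Pool.Agent.U29.JS
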