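import Pool.Agent.U29.JS.Dec

/-!
# The family of a graph

The ground set has four elements `4 * u, …, 4 * u + 3` for every vertex `u`, and ten more elements.
The family consists of the sets `{4 * u, …, 4 * u + 3}` for the vertices `u` and of the sets
`{4 * u, 4 * u + 1, 4 * w, 4 * w + 1}` for the edges `uw`.
-/

set_option autoImplicit false
set_option linter.unusedSectionVars false

namespace Pool.Agent.U29.JS

open Finset

/-- the size of the ground set -/
def NN (n : ℕ) : ℕ := 4 * n + 10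

/-- membership in the set of a pair of vertices -/
def memQ (u w x : ℕ) : Prop :=
  (u = w ∧ 4 * u ≤ x ∧ x < 4 * u + 4) ∨
    (u ≠ w ∧ (x = 4 * u ∨ x = 4 * u + 1 ∨ x = 4 * w ∨ x = 4 * w + 1))

instance (u w x : ℕ) : Decidable (memQ u w x) := by unfold memQ; infer_instance

/-- the set of a pair of vertices -/
def Qf {n : ℕ} (u w : Fin n) : Finset (Fin (NN n)) := univ.filter fun x => memQ u w x

theorem mem_Qf {n : ℕ} {u w : Fin n} {x : Fin (NN n)} : x ∈ Qf u w ↔ memQ u w x := by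
  unfold Qf
  rw [mem_filter]
  simp

/-- the family of a graph -/
def fam {n : ℕ} (G : SimpleGraph (Fin n)) : Set (Finset (Fin (NN n))) :=
  {Q | ∃ u w : Fin n, (u = w ∨ G.Adj u w) ∧ Q = Qf u w}

/-- an element of the ground set -/
def el {n : ℕ} (u : Fin n) (i : Fin 4) : Fin (NN n) :=
  ⟨4 * u + i, by have := u.2; have := i.2; unfold NN; omega⟩

theorem Qf_self {n : ℕ} (u : Fin n) : Qf u u = {el u 0, el u 1, el u 2, el u 3} := by
  ext x
  rw [mem_Qf]
  simp only [mem_insert, mem_singleton, Fin.ext_iff, el, memQ]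
  have h0 : ((0 : Fin 4) : ℕ) = 0 := rfl
  have h1 : ((1 : Fin 4) : ℕ) = 1 := rfl
  have h2 : ((2 : Fin 4) : ℕ) = 2 := rfl
  have h3 : ((3 : Fin 4) : ℕ) = 3 := rfl
  rw [h0, h1, h2, h3]
  simp only [ne_eq, not_true_eq_false, false_and, or_false, true_and]
  omega

theorem Qf_ne {n : ℕ} {u w : Fin n} (h : u ≠ w) : Qf u w = {el u 0, el u 1, el w 0, el w 1} := by
  have h' : (u : ℕ) ≠ w := fun h' => h (Fin.ext h')
  ext x
  rw [mem_Qf]
  simp only [mem_insert, mem_singleton, Fin.ext_iff, el, memQ]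
  have h0 : ((0 : Fin 4) : ℕ) = 0 := rfl
  have h1 : ((1 : Fin 4) : ℕ) = 1 := rfl
  rw [h0, h1]
  omega

theorem el_inj {n : ℕ} {u w : Fin n} {i j : Fin 4} (h : el u i = el w j) : u = w ∧ i = j := by
  have h1 := congrArg Fin.val h
  have := i.2
  have := j.2
  simp only [el] at h1
  constructor
  · ext; omega
  · ext; omega

theorem el_ne {n : ℕ} {u w : Fin n} {i j : Fin 4} (h : u ≠ w ∨ i ≠ j) : el u i ≠ el w j := by
  intro h'
  obtain ⟨h1, h2⟩ := el_inj h'
  rcases h with h | h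
  · exact h h1
  · exact h h2

theorem card_Qf {n : ℕ} (u w : Fin n) : (Qf u w).card = 4 := by
  by_cases h : u = w
  · subst h
    rw [Qf_self, card_insert_of_notMem, card_insert_of_notMem, card_pair]
    · exact el_ne (Or.inr (by decide))
    · simp only [mem_insert, mem_singleton, not_or]
      exact ⟨el_ne (Or.inr (by decide)), el_ne (Or.inr (by decide))⟩
    · simp only [mem_insert, mem_singleton, not_or]
      exact ⟨el_ne (Or.inr (by decide)), el_ne (Or.inr (by decide)), el_ne (Or.inr (by decide))⟩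
  · rw [Qf_ne h, card_insert_of_notMem, card_insert_of_notMem, card_pair]
    · exact el_ne (Or.inr (by decide))
    · simp only [mem_insert, mem_singleton, not_or]
      exact ⟨el_ne (Or.inl h), el_ne (Or.inl h)⟩
    · simp only [mem_insert, mem_singleton, not_or]
      exact ⟨el_ne (Or.inr (by decide)), el_ne (Or.inl h), el_ne (Or.inl h)⟩

theorem Qf_comm {n : ℕ} (u w : Fin n) : Qf u w = Qf w u := by
  ext x
  rw [mem_Qf, mem_Qf]
  unfold memQ
  omega

/-- Two elements of a set of an edge which belong to one of its ends. -/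
theorem exists_of_card {n : ℕ} {u w : Fin n} {S : Finset (Fin (NN n))} (hS : S ⊆ Qf u w)
    (h : u ≠ w) (h3 : 3 ≤ S.card) : (∃ x ∈ S, (x : ℕ) = 4 * w ∨ (x : ℕ) = 4 * w + 1) := by
  by_contra hcon
  push Not at hcon
  have h1 : S ⊆ {el u 0, el u 1} := by
    intro x hx
    have h2 := hS hx
    rw [Qf_ne h] at h2
    simp only [mem_insert, mem_singleton] at h2 ⊢
    rcases h2 with h2 | h2 | h2 | h2
    · exact Or.inl h2
    · exact Or.inr h2
    · exfalso
      refine (hcon x hx).1 ?_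
      rw [h2]
      simp [el]
    · exfalso
      refine (hcon x hx).2 ?_
      rw [h2]
      simp [el]
  have h2 := card_le_card h1
  have h4 := card_le_two (a := el u 0) (b := el u 1)
  omega

theorem sys_fam {n : ℕ} (G : SimpleGraph (Fin n)) : Sys (fam G) := by
  constructor
  · rintro Q ⟨u, w, -, rfl⟩
    exact card_Qf u w
  · rintro Q ⟨u, w, -, rfl⟩ Q' ⟨u', w', -, rfl⟩ h3
    by_cases h : u = w
    · subst h
      by_cases h' : u' = w'
      · subst h'
        obtain ⟨x, hx⟩ := card_pos.1 (show 0 < (Qf u u ∩ Qf u' u').card by omega)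
        rw [mem_inter, mem_Qf, mem_Qf] at hx
        have : u = u' := by
          ext
          unfold memQ at hx
          omega
        rw [this]
      · exfalso
        obtain ⟨x, hx, h4⟩ := exists_of_card (inter_subset_right (s₁ := Qf u u)) h' h3
        obtain ⟨y, hy, h5⟩ := exists_of_card (u := w') (w := u')
          (S := Qf u u ∩ Qf u' w') (by rw [Qf_comm w' u']; exact inter_subset_right)
          (fun h => h' h.symm) h3
        rw [mem_inter, mem_Qf, mem_Qf] at hx hy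
        have : u' = w' := by
          ext
          have hx1 := hx.1
          have hy1 := hy.1
          unfold memQ at hx1 hy1
          omega
        exact h' this
    · have h0 : (u : ℕ) ≠ w := fun h' => h (Fin.ext h')
      obtain ⟨x, hx, h4⟩ := exists_of_card (inter_subset_left (s₂ := Qf u' w')) h h3
      obtain ⟨y, hy, h5⟩ := exists_of_card (u := w) (w := u)
        (S := Qf u w ∩ Qf u' w') (by rw [Qf_comm w u]; exact inter_subset_left)
        (fun h' => h h'.symm) h3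
      rw [mem_inter, mem_Qf, mem_Qf] at hx hy
      have hx1 := hx.2
      have hy1 := hy.2
      unfold memQ at hx1 hy1
      have h6 : (u : ℕ) = u' ∧ (w : ℕ) = w' ∨ (u : ℕ) = w' ∧ (w : ℕ) = u' := by omega
      rcases h6 with ⟨h6, h7⟩ | ⟨h6, h7⟩
      · rw [Fin.ext h6, Fin.ext h7]
      · rw [Fin.ext h6, Fin.ext h7, Qf_comm]

theorem Qf_self_inj {n : ℕ} {u w : Fin n} (h : Qf u u = Qf w w) : u = w := by
  have h1 : el u 0 ∈ Qf w w := by
    rw [← h, mem_Qf]
    left
    simp [el]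
  rw [mem_Qf] at h1
  ext
  simp only [memQ, el] at h1
  have h0 : ((0 : Fin 4) : ℕ) = 0 := rfl
  rw [h0] at h1
  omega

/-- The sets of the vertices are mapped to the sets of the vertices. -/
theorem exists_vertex {n : ℕ} {G G' : SimpleGraph (Fin n)} {π : Equiv.Perm (Fin (NN n))}
    (hπ : ∀ Q, Q ∈ fam G ↔ Q.map π.toEmbedding ∈ fam G') (u : Fin n) :
    ∃ v : Fin n, (Qf u u).map π.toEmbedding = Qf v v := by
  obtain ⟨a, b, hab, h1⟩ := (hπ (Qf u u)).1 ⟨u, u, Or.inl rfl, rfl⟩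
  by_cases h : a = b
  · subst h
    exact ⟨a, h1⟩
  exfalso
  -- the image of `el u 3` is in a set `Qf v v`
  have h2 : π (el u 3) ∈ Qf a b := by
    rw [← h1, mem_map]
    exact ⟨el u 3, by rw [Qf_self]; simp, rfl⟩
  obtain ⟨v, hv⟩ : ∃ v : Fin n, π (el u 3) ∈ Qf v v := by
    rw [Qf_ne h] at h2
    simp only [mem_insert, mem_singleton] at h2
    rcases h2 with h2 | h2 | h2 | h2
    · exact ⟨a, by rw [h2, Qf_self]; simp⟩
    · exact ⟨a, by rw [h2, Qf_self]; simp⟩
    · exact ⟨b, by rw [h2, Qf_self]; simp⟩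
    · exact ⟨b, by rw [h2, Qf_self]; simp⟩
  have h3 : (Qf v v).map π.symm.toEmbedding ∈ fam G := by
    rw [hπ, map_map]
    have : (Qf v v).map (π.symm.toEmbedding.trans π.toEmbedding) = Qf v v := by
      ext x
      simp
    rw [this]
    exact ⟨v, v, Or.inl rfl, rfl⟩
  obtain ⟨c, d, hcd, h4⟩ := h3
  have h5 : el u 3 ∈ Qf c d := by
    rw [← h4, mem_map]
    exact ⟨π (el u 3), hv, by simp⟩
  have h6 : c = u ∧ d = u := by
    rw [mem_Qf] at h5
    simp only [memQ, el] at h5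
    have h0 : ((3 : Fin 4) : ℕ) = 3 := rfl
    rw [h0] at h5
    constructor
    · ext; omega
    · ext; omega
  rw [h6.1, h6.2] at h4
  have h7 : Qf v v = Qf a b := by
    rw [← h1, ← h4, map_map]
    ext x
    simp
  have h8 : el v 3 ∈ Qf a b := by
    rw [← h7, Qf_self]
    simp
  rw [mem_Qf] at h8
  simp only [memQ, el] at h8
  have h0 : ((3 : Fin 4) : ℕ) = 3 := rfl
  have h9 : (a : ℕ) ≠ b := fun h' => h (Fin.ext h')
  rw [h0] at h8
  omega

theorem adj_of {n : ℕ} {G G' : SimpleGraph (Fin n)} {π : Equiv.Perm (Fin (NN n))}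
    (hπ : ∀ Q, Q ∈ fam G → Q.map π.toEmbedding ∈ fam G') {σ : Fin n → Fin n}
    (hinj : Function.Injective σ)
    (hσ : ∀ u, (Qf u u).map π.toEmbedding = Qf (σ u) (σ u)) {u w : Fin n} (h : G.Adj u w) :
    G'.Adj (σ u) (σ w) := by
  obtain ⟨a, b, hab, h1⟩ := hπ (Qf u w) ⟨u, w, Or.inr h, rfl⟩
  have h2 : π (el u 0) ∈ Qf a b := by
    rw [← h1, mem_map]
    exact ⟨el u 0, by rw [Qf_ne h.ne]; simp, rfl⟩
  have h3 : π (el w 0) ∈ Qf a b := by
    rw [← h1, mem_map]
    exact ⟨el w 0, by rw [Qf_ne h.ne]; simp, rfl⟩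
  have h4 : π (el u 0) ∈ Qf (σ u) (σ u) := by
    rw [← hσ, mem_map]
    exact ⟨el u 0, by rw [Qf_self]; simp, rfl⟩
  have h5 : π (el w 0) ∈ Qf (σ w) (σ w) := by
    rw [← hσ, mem_map]
    exact ⟨el w 0, by rw [Qf_self]; simp, rfl⟩
  have h6 : (σ u : ℕ) ≠ σ w := fun h' => h.ne (hinj (Fin.ext h'))
  rw [mem_Qf] at h2 h3 h4 h5
  unfold memQ at h2 h3 h4 h5
  have h7 : (a : ℕ) = σ u ∧ (b : ℕ) = σ w ∨ (a : ℕ) = σ w ∧ (b : ℕ) = σ u := by omega
  rcases h7 with ⟨h7, h8⟩ | ⟨h7, h8⟩
  · rw [← Fin.ext h7, ← Fin.ext h8]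
    refine hab.resolve_left fun h9 => h6 ?_
    rw [← h7, ← h8, h9]
  · rw [← Fin.ext h7, ← Fin.ext h8]
    refine (hab.resolve_left fun h9 => h6 ?_).symm
    rw [← h7, ← h8, h9]

/-- The permutation of the ground set of a permutation of the vertices. -/
def lift {n : ℕ} (σ : Fin n → Fin n) (x : Fin (NN n)) : Fin (NN n) :=
  if h : (x : ℕ) / 4 < n then ⟨4 * (σ ⟨x / 4, h⟩) + x % 4, by
    have := (σ ⟨x / 4, h⟩).2
    unfold NN
    omega⟩ else x

theorem lift_lift {n : ℕ} {σ τ : Fin n → Fin n} (h : ∀ u, τ (σ u) = u) (x : Fin (NN n)) :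
    lift τ (lift σ x) = x := by
  unfold lift
  by_cases hx : (x : ℕ) / 4 < n
  · rw [dif_pos hx]
    have h1 : (4 * ((σ ⟨x / 4, hx⟩ : Fin n) : ℕ) + x % 4) / 4 = (σ ⟨x / 4, hx⟩ : Fin n) := by omega
    have h2 : (4 * ((σ ⟨x / 4, hx⟩ : Fin n) : ℕ) + x % 4) / 4 < n := by
      rw [h1]; exact (σ ⟨x / 4, hx⟩).2
    rw [dif_pos h2]
    ext
    dsimp only
    have h3 : (⟨(4 * ((σ ⟨x / 4, hx⟩ : Fin n) : ℕ) + x % 4) / 4, h2⟩ : Fin n) =
      σ ⟨x / 4, hx⟩ := Fin.ext h1
    rw [h3, h]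
    dsimp only
    omega
  · rw [dif_neg hx, dif_neg hx]

theorem lift_mem {n : ℕ} (σ : Equiv.Perm (Fin n)) (u w : Fin n) (x : Fin (NN n)) :
    lift σ x ∈ Qf (σ u) (σ w) ↔ x ∈ Qf u w := by
  rw [mem_Qf, mem_Qf]
  have huw : (σ u : ℕ) = σ w ↔ (u : ℕ) = w := by
    rw [← Fin.ext_iff, σ.injective.eq_iff, Fin.ext_iff]
  unfold lift
  by_cases hx : (x : ℕ) / 4 < n
  · rw [dif_pos hx]
    have hu : (σ ⟨x / 4, hx⟩ : ℕ) = σ u ↔ (x : ℕ) / 4 = u := by
      rw [← Fin.ext_iff, σ.injective.eq_iff, Fin.ext_iff]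
    have hw : (σ ⟨x / 4, hx⟩ : ℕ) = σ w ↔ (x : ℕ) / 4 = w := by
      rw [← Fin.ext_iff, σ.injective.eq_iff, Fin.ext_iff]
    unfold memQ
    dsimp only
    omega
  · rw [dif_neg hx]
    have := u.2
    have := w.2
    have := (σ u).2
    have := (σ w).2
    unfold memQ
    omega

theorem iso_fam {n : ℕ} (G G' : SimpleGraph (Fin n)) : Nonempty (G ≃g G') ↔
    ∃ π : Equiv.Perm (Fin (NN n)), ∀ Q, Q ∈ fam G ↔ Q.map π.toEmbedding ∈ fam G' := by
  constructor
  · rintro ⟨φ⟩
    obtain ⟨σ, hσ⟩ : ∃ σ : Equiv.Perm (Fin n), ∀ u w, G.Adj u w ↔ G'.Adj (σ u) (σ w) :=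
      ⟨φ.toEquiv, fun u w => φ.map_adj_iff.symm⟩
    refine ⟨⟨lift σ, lift σ.symm, lift_lift (fun u => σ.symm_apply_apply u),
      lift_lift (fun u => σ.apply_symm_apply u)⟩, fun Q => ?_⟩
    have key : ∀ u w : Fin n, (Qf u w).map (⟨lift σ, lift σ.symm,
        lift_lift (fun u => σ.symm_apply_apply u), lift_lift (fun u => σ.apply_symm_apply u)⟩ :
          Equiv.Perm (Fin (NN n))).toEmbedding = Qf (σ u) (σ w) := by
      intro u w
      refine eq_of_subset_of_card_le ?_ (by rw [card_map, card_Qf, card_Qf])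
      intro y hy
      rw [mem_map] at hy
      obtain ⟨x, hx, rfl⟩ := hy
      exact (lift_mem σ u w x).2 hx
    constructor
    · rintro ⟨u, w, huw, rfl⟩
      refine ⟨σ u, σ w, ?_, key u w⟩
      rcases huw with rfl | h
      · exact Or.inl rfl
      · exact Or.inr ((hσ u w).1 h)
    · rintro ⟨u', w', huw, h1⟩
      obtain ⟨u, rfl⟩ := σ.surjective u'
      obtain ⟨w, rfl⟩ := σ.surjective w'
      rw [← key u w, map_inj] at h1
      refine ⟨u, w, ?_, h1⟩
      rcases huw with h | h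
      · exact Or.inl (σ.injective h)
      · exact Or.inr ((hσ u w).2 h)
  · rintro ⟨π, hπ⟩
    have h1 := exists_vertex hπ
    choose σ hσ using h1
    have hinj : Function.Injective σ := by
      intro u w h
      refine Qf_self_inj (map_injective π.toEmbedding ?_)
      rw [hσ, hσ, h]
    have hbij : Function.Bijective σ := Finite.injective_iff_bijective.1 hinj
    have hcancel : ∀ Q : Finset (Fin (NN n)), (Q.map π.symm.toEmbedding).map π.toEmbedding = Q := by
      intro Q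
      rw [map_map]
      ext x
      simp
    refine ⟨⟨Equiv.ofBijective σ hbij, fun {u w} => ⟨fun h => ?_, fun h => ?_⟩⟩⟩
    · have h2 : ∀ v, (Qf v v).map π.symm.toEmbedding =
          Qf ((Equiv.ofBijective σ hbij).symm v) ((Equiv.ofBijective σ hbij).symm v) := by
        intro v
        apply map_injective π.toEmbedding
        rw [hcancel, hσ]
        have h3 : σ ((Equiv.ofBijective σ hbij).symm v) = v :=
          Equiv.ofBijective_apply_symm_apply σ hbij v
        rw [h3]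
      have h3 := adj_of (G := G') (G' := G) (π := π.symm) (fun Q hQ => by
        rw [hπ, hcancel]
        exact hQ) (Equiv.injective _) h2 h
      rwa [Equiv.symm_apply_apply, Equiv.symm_apply_apply] at h3
    · exact adj_of (fun Q hQ => (hπ Q).1 hQ) hinj hσ h

/-- **The encoding.** -/
theorem iso_Γ {n : ℕ} (G G' : SimpleGraph (Fin n)) :
    Nonempty (G ≃g G') ↔ Nonempty (Γ (fam G) ≃g Γ (fam G')) := by
  rw [iso_fam, iso_iff (sys_fam G) (sys_fam G') (by rw [Fintype.card_fin]; unfold NN; omega)]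

end Pool.Agent.U29.JS
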