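import Pool.Agent.U29.JS.Basic
import Pool.Agent.U17.Eig.Spec

/-!
# The graphs `Γ 𝒬` are connected, regular, and have four distinct eigenvalues
-/

set_option autoImplicit false
set_option linter.unusedSectionVars false

namespace Pool.Agent.U29.JS

open Finset Matrix
open Pool.Agent.U17.Eig (eigs mem_eigs)

variable {X : Type*} [Fintype X] [DecidableEq X]

/-- The pair `{a, b}`. -/
def pair (a b : X) (h : a ≠ b) : Sub X 2 := ⟨{a, b}, card_pair h⟩

/-! ### Connectedness -/

theorem reach_pair {𝒬 : Set (Finset X)} {T T' : Sub X 3} {p : Sub X 2} (h1 : inc 𝒬 T.1 p.1)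
    (h2 : inc 𝒬 T'.1 p.1) : (Γ 𝒬).Reachable T T' := by
  by_cases h : T = T'
  · rw [h]
  · exact SimpleGraph.Adj.reachable ⟨h, p, h1, h2⟩

theorem Γ_connected {𝒬 : Set (Finset X)} (h𝒬 : Sys 𝒬) (hX : 10 ≤ Fintype.card X) :
    (Γ 𝒬).Connected := by
  classical
  have hne : Nonempty (Sub X 3) := by
    obtain ⟨s, hs⟩ := Finset.exists_subset_card_eq (s := (univ : Finset X)) (n := 3)
      (by rw [card_univ]; omega)
    exact ⟨⟨s, hs.2⟩⟩
  have hex : ∀ T : Sub X 3, ∃ p : Sub X 2, inc 𝒬 T.1 p.1 := by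
    intro T
    have h1 := card_inc h𝒬 T.2
    obtain ⟨p, hp⟩ := card_pos.1 (show 0 < (univ.filter fun p : Sub X 2 => inc 𝒬 T.1 p.1).card by
      omega)
    rw [mem_filter] at hp
    exact ⟨p, hp.2⟩
  have hadj : ∀ (T T' : Sub X 3) (p q : Sub X 2), inc 𝒬 T.1 p.1 → inc 𝒬 T'.1 q.1 →
      (p.1 ∩ q.1).Nonempty → (Γ 𝒬).Reachable T T' := by
    intro T T' p q h1 h2 h3
    by_cases hpq : p = q
    · subst hpq
      exact reach_pair h1 h2
    · obtain ⟨S, hS, h4, h5⟩ := inc_exists h𝒬 p.2 q.2 (fun h => hpq (Subtype.ext h)) h3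
      exact (reach_pair (T' := ⟨S, hS⟩) h1 h4).trans (reach_pair h5 h2)
  refine ⟨fun T T' => ?_⟩
  obtain ⟨p, hp⟩ := hex T
  obtain ⟨q, hq⟩ := hex T'
  by_cases h : (p.1 ∩ q.1).Nonempty
  · exact hadj T T' p q hp hq h
  · obtain ⟨a, ha⟩ := card_pos.1 (show 0 < p.1.card by rw [p.2]; norm_num)
    obtain ⟨b, hb⟩ := card_pos.1 (show 0 < q.1.card by rw [q.2]; norm_num)
    have hab : a ≠ b := by
      rintro rfl
      exact h ⟨a, mem_inter.2 ⟨ha, hb⟩⟩
    have h3 := card_blocks_eq h𝒬 (pair a b hab)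
    obtain ⟨S, hS⟩ := card_pos.1 (show 0 <
      (univ.filter fun T : Sub X 3 => inc 𝒬 T.1 (pair a b hab).1).card by omega)
    rw [mem_filter] at hS
    exact (hadj T S p (pair a b hab) hp hS.2 ⟨a, mem_inter.2 ⟨ha, mem_insert_self _ _⟩⟩).trans
      (hadj S T' (pair a b hab) q hS.2 hq ⟨b, mem_inter.2 ⟨by simp [pair], hb⟩⟩)

/-! ### Matrices -/

/-- The incidence matrix of elements and pairs. -/
noncomputable def Mx (X : Type*) [Fintype X] [DecidableEq X] : Matrix X (Sub X 2) ℝ :=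
  Matrix.of fun a p => if a ∈ p.1 then 1 else 0

theorem gram_apply {𝒬 : Set (Finset X)} (h𝒬 : Sys 𝒬) (p q : Sub X 2) :
    gram 𝒬 p q = if p = q then ((Fintype.card X : ℝ) - 2) else
      if (p.1 ∩ q.1).Nonempty then 1 else 0 := by
  classical
  unfold gram
  rw [W_mul]
  by_cases hpq : p = q
  · subst hpq
    rw [if_pos rfl]
    simp only [and_self]
    have h1 : 2 ≤ Fintype.card X := by
      rw [← p.2]
      exact card_le_univ _
    rw [card_blocks_eq h𝒬 p, Nat.cast_sub h1]
    norm_num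
  · have h3 : p.1 ≠ q.1 := fun h => hpq (Subtype.ext h)
    rw [if_neg hpq]
    split_ifs with h
    · obtain ⟨T, hT, h4, h5⟩ := inc_exists h𝒬 p.2 q.2 h3 h
      have h6 : (univ.filter fun T : Sub X 3 => inc 𝒬 T.1 p.1 ∧ inc 𝒬 T.1 q.1).card = 1 := by
        rw [card_eq_one]
        refine ⟨⟨T, hT⟩, ?_⟩
        ext T'
        rw [mem_filter, mem_singleton]
        constructor
        · rintro ⟨-, h6, h7⟩
          exact Subtype.ext (inc_unique h𝒬 T'.2 hT p.2 q.2 h3 h6 h7 h4 h5)
        · rintro rfl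
          exact ⟨mem_univ _, h4, h5⟩
      rw [h6]
      norm_num
    · have h6 : (univ.filter fun T : Sub X 3 => inc 𝒬 T.1 p.1 ∧ inc 𝒬 T.1 q.1).card = 0 := by
        rw [card_eq_zero, filter_eq_empty_iff]
        rintro T - ⟨h4, h5⟩
        exact h (inc_inter h𝒬 T.2 p.2 q.2 h4 h5)
      rw [h6]
      norm_num

theorem MtM (p q : Sub X 2) : ((Mx X)ᵀ * Mx X) p q = if p = q then (2 : ℝ) else
      if (p.1 ∩ q.1).Nonempty then 1 else 0 := by
  have h1 : ((Mx X)ᵀ * Mx X) p q = ((p.1 ∩ q.1).card : ℝ) := by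
    rw [Matrix.mul_apply]
    have h2 : ∀ a : X, (Mx X)ᵀ p a * Mx X a q = if a ∈ p.1 ∩ q.1 then 1 else 0 := by
      intro a
      simp only [Mx, Matrix.of_apply, Matrix.transpose_apply, mem_inter]
      by_cases h1 : a ∈ p.1 <;> by_cases h2 : a ∈ q.1 <;> simp [h1, h2]
    simp_rw [h2]
    rw [sum_ite_mem, univ_inter, sum_const, nsmul_eq_mul, mul_one]
  rw [h1]
  by_cases hpq : p = q
  · subst hpq
    rw [inter_self, if_pos rfl, p.2]
    norm_num
  · rw [if_neg hpq]
    split_ifs with h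
    · have h2 : (p.1 ∩ q.1).card = 1 := by
        have h3 := card_pos.2 h
        by_contra h4
        have h5 : 2 ≤ (p.1 ∩ q.1).card := by omega
        have h6 := eq_of_subset_of_card_le (inter_subset_left (s₁ := p.1) (s₂ := q.1))
          (by rw [p.2]; exact h5)
        have h7 := eq_of_subset_of_card_le (inter_subset_right (s₁ := p.1) (s₂ := q.1))
          (by rw [q.2]; exact h5)
        exact hpq (Subtype.ext (h6.symm.trans h7))
      rw [h2]
      norm_num
    · rw [not_nonempty_iff_eq_empty] at h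
      rw [h]
      norm_num

theorem card_through (a : X) :
    (univ.filter fun p : Sub X 2 => a ∈ p.1).card = Fintype.card X - 1 := by
  rw [← card_univ, ← card_erase_of_mem (mem_univ a)]
  symm
  refine card_bij (fun b hb => pair a b (mem_erase.1 hb).1.symm) ?_ ?_ ?_
  · intro b hb
    rw [mem_filter]
    exact ⟨mem_univ _, mem_insert_self _ _⟩
  · intro b hb c hc h
    have h7 : ({a, b} : Finset X) = {a, c} := congrArg Subtype.val h
    have h8 : b ∈ ({a, c} : Finset X) := by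
      rw [← h7]
      simp
    rw [mem_insert, mem_singleton] at h8
    exact h8.resolve_left (mem_erase.1 hb).1
  · intro p hp
    rw [mem_filter] at hp
    obtain ⟨b, hb⟩ := card_pos.1 (show 0 < (p.1.erase a).card by
      rw [card_erase_of_mem hp.2, p.2]; norm_num)
    rw [mem_erase] at hb
    refine ⟨b, mem_erase.2 ⟨hb.1, mem_univ _⟩, Subtype.ext ?_⟩
    refine eq_of_subset_of_card_le ?_ ?_
    · intro x hx
      simp only [pair, mem_insert, mem_singleton] at hx
      rcases hx with rfl | rfl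
      · exact hp.2
      · exact hb.2
    · rw [p.2]
      exact (card_pair hb.1.symm).ge

theorem MMt (a b : X) : (Mx X * (Mx X)ᵀ) a b = (if a = b then ((Fintype.card X : ℝ) - 2) else 0) +
    1 := by
  have h1 : (Mx X * (Mx X)ᵀ) a b = ((univ.filter fun p : Sub X 2 => a ∈ p.1 ∧ b ∈ p.1).card : ℝ) := by
    rw [Matrix.mul_apply, card_filter]
    push_cast
    refine sum_congr rfl fun p _ => ?_
    simp only [Mx, Matrix.of_apply, Matrix.transpose_apply]
    by_cases h1 : a ∈ p.1 <;> by_cases h2 : b ∈ p.1 <;> simp [h1, h2]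
  rw [h1]
  by_cases hab : a = b
  · subst hab
    simp only [and_self]
    have h2 : 1 ≤ Fintype.card X := Fintype.card_pos_iff.2 ⟨a⟩
    rw [card_through, Nat.cast_sub h2]
    simp
    ring
  · rw [if_neg hab]
    have h2 : (univ.filter fun p : Sub X 2 => a ∈ p.1 ∧ b ∈ p.1).card = 1 := by
      rw [card_eq_one]
      refine ⟨pair a b hab, ?_⟩
      ext p
      rw [mem_filter, mem_singleton]
      constructor
      · rintro ⟨-, h3, h4⟩
        refine Subtype.ext (eq_of_subset_of_card_le ?_ ?_).symm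
        · intro x hx
          simp only [pair, mem_insert, mem_singleton] at hx
          rcases hx with rfl | rfl
          · exact h3
          · exact h4
        · rw [p.2]
          exact (card_pair hab).ge
      · rintro rfl
        exact ⟨mem_univ _, by simp [pair], by simp [pair]⟩
    rw [h2]
    norm_num

section Vec

variable {𝒬 : Set (Finset X)} (h𝒬 : Sys 𝒬)
include h𝒬

open Classical in
theorem A_mulVec (z : Sub X 3 → ℝ) : ((Γ 𝒬).adjMatrix ℝ) *ᵥ z =
    (W 𝒬)ᵀ *ᵥ (W 𝒬 *ᵥ z) - (3 : ℝ) • z := by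
  rw [adj_eq h𝒬, Matrix.sub_mulVec, Matrix.mulVec_mulVec]
  congr 1
  ext T
  rw [Matrix.scalar_apply, Matrix.mulVec_diagonal]
  rfl

theorem gram_eq_add : gram 𝒬 = (Mx X)ᵀ * Mx X + ((Fintype.card X : ℝ) - 4) • (1 : Matrix _ _ ℝ) := by
  ext p q
  rw [gram_apply h𝒬, Matrix.add_apply, MtM, Matrix.smul_apply, Matrix.one_apply]
  by_cases hpq : p = q
  · rw [if_pos hpq, if_pos hpq, if_pos hpq, smul_eq_mul, mul_one]
    ring
  · rw [if_neg hpq, if_neg hpq, if_neg hpq, smul_eq_mul, mul_zero, add_zero]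

theorem gram_mulVec (y : Sub X 2 → ℝ) : W 𝒬 *ᵥ ((W 𝒬)ᵀ *ᵥ y) =
    (Mx X)ᵀ *ᵥ (Mx X *ᵥ y) + ((Fintype.card X : ℝ) - 4) • y := by
  have h1 : W 𝒬 * (W 𝒬)ᵀ = (Mx X)ᵀ * Mx X + ((Fintype.card X : ℝ) - 4) • (1 : Matrix _ _ ℝ) :=
    gram_eq_add h𝒬
  rw [Matrix.mulVec_mulVec, Matrix.mulVec_mulVec, h1, Matrix.add_mulVec, Matrix.smul_mulVec,
    Matrix.one_mulVec]

omit h𝒬 in
theorem M_mulVec (x : X → ℝ) : Mx X *ᵥ ((Mx X)ᵀ *ᵥ x) =
    ((Fintype.card X : ℝ) - 2) • x + fun _ => ∑ a, x a := by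
  rw [Matrix.mulVec_mulVec]
  ext a
  rw [Matrix.mulVec, dotProduct, Pi.add_apply, Pi.smul_apply, smul_eq_mul]
  have h1 : ∀ b, (Mx X * (Mx X)ᵀ) a b * x b =
      (if a = b then ((Fintype.card X : ℝ) - 2) * x b else 0) + x b := by
    intro b
    rw [MMt]
    split_ifs <;> ring
  simp_rw [h1]
  rw [sum_add_distrib, sum_ite_eq, if_pos (mem_univ _)]

theorem lift_eig {y : Sub X 2 → ℝ} {μ : ℝ} (hy : y ≠ 0) (hμ : μ ≠ 0)
    (h : W 𝒬 *ᵥ ((W 𝒬)ᵀ *ᵥ y) = μ • y) : μ - 3 ∈ eigs (Γ 𝒬) := by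
  classical
  rw [mem_eigs]
  refine ⟨(W 𝒬)ᵀ *ᵥ y, ?_, ?_⟩
  · intro h0
    rw [h0, Matrix.mulVec_zero] at h
    have := smul_eq_zero.1 h.symm
    tauto
  · rw [A_mulVec h𝒬, h, Matrix.mulVec_smul, sub_smul]

theorem lift_eig' {x : X → ℝ} {ν : ℝ} (hx : x ≠ 0) (hν : ν ≠ 0)
    (hμ : ν + ((Fintype.card X : ℝ) - 4) ≠ 0)
    (h : Mx X *ᵥ ((Mx X)ᵀ *ᵥ x) = ν • x) :
    ν + ((Fintype.card X : ℝ) - 4) - 3 ∈ eigs (Γ 𝒬) := by
  refine lift_eig h𝒬 (y := (Mx X)ᵀ *ᵥ x) ?_ hμ ?_
  · intro h0
    rw [h0, Matrix.mulVec_zero] at h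
    have := smul_eq_zero.1 h.symm
    tauto
  · rw [gram_mulVec h𝒬, h, Matrix.mulVec_smul, add_smul]

/-- The eigenvalues. -/
theorem eigs_Γ (hX : 10 ≤ Fintype.card X) : eigs (Γ 𝒬) =
    {3 * (Fintype.card X : ℝ) - 9, 2 * (Fintype.card X : ℝ) - 9, (Fintype.card X : ℝ) - 7, -3} := by
  classical
  have hN : (10 : ℝ) ≤ Fintype.card X := by exact_mod_cast hX
  ext θ
  simp only [Set.mem_insert_iff, Set.mem_singleton_iff]
  constructor
  · intro h
    rw [mem_eigs] at h
    obtain ⟨z, hz, h⟩ := h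
    rw [A_mulVec h𝒬, sub_eq_iff_eq_add, ← add_smul] at h
    by_cases hy : W 𝒬 *ᵥ z = 0
    · rw [hy, Matrix.mulVec_zero] at h
      have h1 := (smul_eq_zero.1 h.symm).resolve_right hz
      right; right; right
      linarith
    · have h1 : W 𝒬 *ᵥ ((W 𝒬)ᵀ *ᵥ (W 𝒬 *ᵥ z)) = (θ + 3) • (W 𝒬 *ᵥ z) := by
        rw [h, Matrix.mulVec_smul]
      rw [gram_mulVec h𝒬] at h1
      have h2 : (Mx X)ᵀ *ᵥ (Mx X *ᵥ (W 𝒬 *ᵥ z)) =
          (θ + 7 - (Fintype.card X : ℝ)) • (W 𝒬 *ᵥ z) := by
        rw [← eq_sub_iff_add_eq, ← sub_smul] at h1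
        rw [h1]
        congr 1
        ring
      by_cases hx : Mx X *ᵥ (W 𝒬 *ᵥ z) = 0
      · rw [hx, Matrix.mulVec_zero] at h2
        have h1 := (smul_eq_zero.1 h2.symm).resolve_right hy
        right; right; left
        linarith
      · have h3 : Mx X *ᵥ ((Mx X)ᵀ *ᵥ (Mx X *ᵥ (W 𝒬 *ᵥ z))) =
            (θ + 7 - (Fintype.card X : ℝ)) • (Mx X *ᵥ (W 𝒬 *ᵥ z)) := by
          rw [h2, Matrix.mulVec_smul]
        rw [M_mulVec] at h3
        generalize Mx X *ᵥ (W 𝒬 *ᵥ z) = x at h3 hx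
        have h4 : ∀ a, (θ + 9 - 2 * (Fintype.card X : ℝ)) * x a = ∑ a, x a := by
          intro a
          have h5 := congrFun h3 a
          simp only [Pi.add_apply, Pi.smul_apply, smul_eq_mul] at h5
          linarith
        by_cases hs : ∑ a, x a = 0
        · right; left
          by_contra hne
          apply hx
          ext a
          have h5 := h4 a
          rw [hs] at h5
          have h6 : θ + 9 - 2 * (Fintype.card X : ℝ) ≠ 0 := fun h6 => hne (by linarith)
          exact (mul_eq_zero.1 h5).resolve_left h6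
        · left
          have h5 : (θ + 9 - 2 * (Fintype.card X : ℝ)) * ∑ a, x a =
              (Fintype.card X : ℝ) * ∑ a, x a := by
            rw [mul_sum, sum_congr rfl fun a _ => h4 a, sum_const, card_univ, nsmul_eq_mul]
          have h6 := mul_right_cancel₀ hs h5
          linarith
  · rintro (rfl | rfl | rfl | rfl)
    · have h1 : (2 * (Fintype.card X : ℝ) - 2) + ((Fintype.card X : ℝ) - 4) - 3 ∈ eigs (Γ 𝒬) := by
        refine lift_eig' h𝒬 (x := fun _ => 1) ?_ ?_ ?_ ?_
        · obtain ⟨a⟩ := Fintype.card_pos_iff.1 (show 0 < Fintype.card X by omega)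
          intro h
          have := congrFun h a
          simp at this
        · intro h; linarith
        · intro h; linarith
        · rw [M_mulVec]
          ext a
          simp only [Pi.add_apply, Pi.smul_apply, smul_eq_mul, sum_const, card_univ, nsmul_eq_mul]
          ring
      convert h1 using 1
      ring
    · have h1 : ((Fintype.card X : ℝ) - 2) + ((Fintype.card X : ℝ) - 4) - 3 ∈ eigs (Γ 𝒬) := by
        obtain ⟨a, b, hab⟩ := Fintype.exists_pair_of_one_lt_card (α := X) (by omega)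
        refine lift_eig' h𝒬 (x := Pi.single a 1 - Pi.single b 1) ?_ ?_ ?_ ?_
        · intro h
          have := congrFun h a
          simp [hab] at this
        · intro h; linarith
        · intro h; linarith
        · rw [M_mulVec]
          ext c
          simp
      convert h1 using 1
      ring
    · have h1 : ((Fintype.card X : ℝ) - 4) - 3 ∈ eigs (Γ 𝒬) := by
        have h2 : LinearMap.ker (Mx X).mulVecLin ≠ ⊥ := by
          apply LinearMap.ker_ne_bot_of_finrank_lt
          rw [Module.finrank_fintype_fun_eq_card, Module.finrank_fintype_fun_eq_card,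
            Fintype.card_finset_len]
          have h3 := Nat.choose_succ_right_eq (Fintype.card X) 1
          rw [Nat.choose_one_right] at h3
          have h4 : Fintype.card X * 9 ≤ Fintype.card X * (Fintype.card X - 1) :=
            Nat.mul_le_mul_left _ (by omega)
          norm_num at h3
          omega
        obtain ⟨y, hy, hy0⟩ := Submodule.exists_mem_ne_zero_of_ne_bot h2
        rw [LinearMap.mem_ker, Matrix.mulVecLin_apply] at hy
        refine lift_eig h𝒬 (y := y) hy0 (fun h => by linarith) ?_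
        rw [gram_mulVec h𝒬, hy, Matrix.mulVec_zero, zero_add]
      convert h1 using 1
      ring
    · have h2 : LinearMap.ker (W 𝒬).mulVecLin ≠ ⊥ := by
        apply LinearMap.ker_ne_bot_of_finrank_lt
        rw [Module.finrank_fintype_fun_eq_card, Module.finrank_fintype_fun_eq_card,
          Fintype.card_finset_len, Fintype.card_finset_len]
        have h3 := Nat.choose_succ_right_eq (Fintype.card X) 2
        have h5 : 0 < (Fintype.card X).choose 2 := Nat.choose_pos (by omega)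
        have h4 : (Fintype.card X).choose 2 * 8 ≤
            (Fintype.card X).choose 2 * (Fintype.card X - 2) :=
          Nat.mul_le_mul_left _ (by omega)
        norm_num at h3
        omega
      obtain ⟨z, hz, hz0⟩ := Submodule.exists_mem_ne_zero_of_ne_bot h2
      rw [LinearMap.mem_ker, Matrix.mulVecLin_apply] at hz
      rw [mem_eigs]
      refine ⟨z, hz0, ?_⟩
      rw [A_mulVec h𝒬, hz, Matrix.mulVec_zero, zero_sub, neg_smul]

open Classical in
/-- The graph is regular. -/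
theorem Γ_degree (hX : 10 ≤ Fintype.card X) (T : Sub X 3) :
    (Γ 𝒬).degree T = 3 * (Fintype.card X - 3) := by
  have h1 := congrFun (A_mulVec h𝒬 (Function.const _ (1 : ℝ))) T
  rw [SimpleGraph.adjMatrix_mulVec_const_apply, mul_one] at h1
  have h2 : W 𝒬 *ᵥ (Function.const _ (1 : ℝ)) = Function.const _ ((Fintype.card X : ℝ) - 2) := by
    ext p
    rw [Matrix.mulVec, dotProduct]
    simp only [W, Matrix.of_apply, Function.const_apply, mul_one]
    rw [sum_boole, card_blocks_eq h𝒬, Nat.cast_sub (by omega)]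
    norm_num
  have h3 : (W 𝒬)ᵀ *ᵥ (Function.const _ ((Fintype.card X : ℝ) - 2)) =
      Function.const _ (3 * ((Fintype.card X : ℝ) - 2)) := by
    ext S
    rw [Matrix.mulVec, dotProduct]
    simp only [W, Matrix.of_apply, Matrix.transpose_apply, Function.const_apply, ite_mul, one_mul,
      zero_mul]
    rw [← sum_filter, sum_const, card_inc h𝒬 S.2, nsmul_eq_mul]
    norm_num
  rw [h2, h3] at h1
  simp only [Pi.sub_apply, Function.const_apply, Pi.smul_apply, smul_eq_mul, mul_one] at h1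
  have h4 : ((3 * (Fintype.card X - 3) : ℕ) : ℝ) = 3 * ((Fintype.card X : ℝ) - 3) := by
    rw [Nat.cast_mul, Nat.cast_sub (by omega)]
    norm_num
  have h5 : ((Γ 𝒬).degree T : ℝ) = ((3 * (Fintype.card X - 3) : ℕ) : ℝ) := by
    rw [h4]
    refine Eq.trans (b := 3 * ((Fintype.card X : ℝ) - 2) - 3) ?_ (by ring)
    exact h1
  exact_mod_cast h5

end Vec

end Pool.Agent.U29.JS
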