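import Pool.Agent.U29.JS.Corr
import Pool.Agent.U29.JS.Spec

/-!
# The reduction
-/

set_option autoImplicit false

namespace Pool.Agent.U29.JS

open Pool.Agent.NPC Pool.Agent.NPC.R671
open Pool.Agent.Y815.GI (GraphIso ent valid valid_iff length_adjMatrix ent_adjMatrix bits_mem)
open Pool.Agent.U17.Eig (eigs eigs_iso)

/-- The Johnson graph `J(N, k)`. -/
def johnson (N k : ℕ) : SimpleGraph {s : Finset (Fin N) // s.card = k} where
  Adj s t := s ≠ t ∧ (s.1 ∩ t.1).card + 1 = k
  symm := ⟨fun s t h => ⟨h.1.symm, by rw [Finset.inter_comm]; exact h.2⟩⟩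
  loopless := ⟨fun _ h => h.1 rfl⟩

theorem Γ_empty (N : ℕ) : Γ (∅ : Set (Finset (Fin N))) = johnson N 3 := by
  ext s t
  show (s ≠ t ∧ ∃ p : Sub (Fin N) 2, inc ∅ s.1 p.1 ∧ inc ∅ t.1 p.1) ↔
    (s ≠ t ∧ (s.1 ∩ t.1).card + 1 = 3)
  refine and_congr_right fun hst => ?_
  simp only [inc_empty]
  constructor
  · rintro ⟨p, h1, h2⟩
    have h3 := Finset.card_le_card (Finset.subset_inter h1 h2)
    rw [p.2] at h3
    by_contra h4
    have h5 : 3 ≤ (s.1 ∩ t.1).card := by omega
    have h6 := Finset.eq_of_subset_of_card_le (Finset.inter_subset_left (s₁ := s.1) (s₂ := t.1))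
      (by rw [s.2]; exact h5)
    have h7 := Finset.eq_of_subset_of_card_le (Finset.inter_subset_right (s₁ := s.1) (s₂ := t.1))
      (by rw [t.2]; exact h5)
    exact hst (Subtype.ext (h6.symm.trans h7))
  · intro h
    exact ⟨⟨s.1 ∩ t.1, by omega⟩, Finset.inter_subset_left, Finset.inter_subset_right⟩

open Classical in
/-- The characteristic polynomial of the adjacency matrix. -/
noncomputable def charP {V : Type*} [Fintype V] (G : SimpleGraph V) : Polynomial ℝ :=
  (G.adjMatrix ℝ).charpoly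

theorem charP_iso {V W : Type*} [Fintype V] [Fintype W] {G : SimpleGraph V}
    {H : SimpleGraph W} (φ : G ≃g H) : charP G = charP H := by
  classical
  unfold charP
  rw [← Matrix.charpoly_reindex φ.toEquiv]
  congr 1
  ext i j
  rw [Matrix.reindex_apply, Matrix.submatrix_apply, SimpleGraph.adjMatrix_apply,
    SimpleGraph.adjMatrix_apply]
  have h : G.Adj (φ.toEquiv.symm i) (φ.toEquiv.symm j) ↔ H.Adj i j := by
    rw [← φ.map_adj_iff]
    show H.Adj (φ.toEquiv (φ.toEquiv.symm i)) (φ.toEquiv (φ.toEquiv.symm j)) ↔ _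
    rw [Equiv.apply_symm_apply, Equiv.apply_symm_apply]
  by_cases h1 : H.Adj i j
  · rw [if_pos h1, if_pos (h.2 h1)]
  · rw [if_neg h1, if_neg fun h2 => h1 (h.1 h2)]

open Classical in
/-- The class of graphs. -/
def JCls (N : ℕ) {V : Type*} [Fintype V] (G : SimpleGraph V) : Prop :=
  10 ≤ N ∧ G.Connected ∧ (∀ v, G.degree v = 3 * (N - 3)) ∧
    eigs G = {3 * (N : ℝ) - 9, 2 * (N : ℝ) - 9, (N : ℝ) - 7, -3} ∧
    charP G = charP (johnson N 3)

theorem JCls.of_iso {N : ℕ} {V W : Type*} [Fintype V] [Fintype W] {G : SimpleGraph V}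
    {H : SimpleGraph W} (φ : G ≃g H) (h : JCls N G) : JCls N H := by
  classical
  obtain ⟨h0, h1, h2, h3, h4⟩ := h
  rw [eigs_iso φ] at h3
  rw [charP_iso φ] at h4
  refine ⟨h0, φ.connected_iff.1 h1, fun v => ?_, h3, h4⟩
  have h5 := h2 (φ.symm v)
  rw [← h5]
  have h6 := φ.symm.degree_eq v
  rw [← h6]

theorem JCls_fam {n : ℕ} (X : SimpleGraph (Fin n)) : JCls (NN n) (Γ (fam X)) := by
  classical
  have h10 : 10 ≤ Fintype.card (Fin (NN n)) := by
    rw [Fintype.card_fin]
    unfold NN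
    omega
  refine ⟨by rwa [Fintype.card_fin] at h10, Γ_connected (sys_fam X) h10, fun v => ?_, ?_, ?_⟩
  · have := Γ_degree (sys_fam X) h10 v
    rwa [Fintype.card_fin] at this
  · have := eigs_Γ (sys_fam X) h10
    rwa [Fintype.card_fin] at this
  · rw [← Γ_empty]
    exact charpoly_eq' (sys_fam X) _ _ _

/-- the reduction -/
noncomputable def red (p : List (List Bool) × List (List Bool)) :
    List (List Bool) × List (List Bool) :=
  if (valid p.1 = true ∧ valid p.2 = true) ∧ p.1.length = p.2.length then (out p.1, out p.2)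
  else (out (adjMatrix (⊥ : SimpleGraph (Fin 0))), out (adjMatrix (⊥ : SimpleGraph (Fin 1))))

theorem not_iso : ¬ Nonempty (Γ (fam (⊥ : SimpleGraph (Fin 0))) ≃g
    Γ (fam (⊥ : SimpleGraph (Fin 1)))) := by
  rintro ⟨φ⟩
  have h := Fintype.card_congr φ.toEquiv
  rw [Fintype.card_finset_len, Fintype.card_finset_len, Fintype.card_fin, Fintype.card_fin] at h
  have h1 : (NN 0).choose 3 ≠ (NN 1).choose 3 := by decide
  exact h1 h

theorem red_spec (p : List (List Bool) × List (List Bool)) :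
    ∃ (N M : ℕ) (X' : SimpleGraph (Fin N)) (Y' : SimpleGraph (Fin M)),
      red p = (adjMatrix X', adjMatrix Y') ∧ (∃ k, JCls k X') ∧ (∃ k, JCls k Y') ∧
        (GraphIso p ↔ Nonempty (X' ≃g Y')) := by
  classical
  by_cases h : (valid p.1 = true ∧ valid p.2 = true) ∧ p.1.length = p.2.length
  · obtain ⟨p1, p2⟩ := p
    obtain ⟨⟨h1, h2⟩, h3⟩ := h
    have h1' := h1
    have h2' := h2
    rw [valid_iff] at h1 h2
    obtain ⟨n, X, rfl⟩ := h1
    obtain ⟨m, Y, rfl⟩ := h2
    rw [length_adjMatrix, length_adjMatrix] at h3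
    subst h3
    have h5 : GraphIso (adjMatrix X, adjMatrix Y) ↔ Nonempty (X ≃g Y) := by
      constructor
      · rintro ⟨n', m', X₁, Y₁, e1, e2, h⟩
        have hn' : n' = n := by
          rw [← length_adjMatrix X₁, e1, length_adjMatrix]
        have hm' : m' = n := by
          rw [← length_adjMatrix Y₁, e2, length_adjMatrix]
        subst hn'
        subst hm'
        rw [adjMatrix_inj e1, adjMatrix_inj e2] at h
        exact h
      · intro h
        exact ⟨n, n, X, Y, rfl, rfl, h⟩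
    obtain ⟨N, X', hX', ⟨φ⟩⟩ := out_eq X
    obtain ⟨M, Y', hY', ⟨ψ⟩⟩ := out_eq Y
    refine ⟨N, M, X', Y', ?_, ⟨_, (JCls_fam X).of_iso φ.symm⟩, ⟨_, (JCls_fam Y).of_iso ψ.symm⟩, ?_⟩
    · unfold red
      rw [if_pos ⟨⟨h1', h2'⟩, by rw [length_adjMatrix, length_adjMatrix]⟩, hX', hY']
    · rw [h5, iso_Γ X Y]
      constructor
      · rintro ⟨χ⟩
        exact ⟨φ.trans (χ.trans ψ.symm)⟩
      · rintro ⟨χ⟩
        exact ⟨φ.symm.trans (χ.trans ψ)⟩
  · obtain ⟨N, X', hX', ⟨φ⟩⟩ := out_eq (⊥ : SimpleGraph (Fin 0))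
    obtain ⟨M, Y', hY', ⟨ψ⟩⟩ := out_eq (⊥ : SimpleGraph (Fin 1))
    refine ⟨N, M, X', Y', ?_, ⟨_, (JCls_fam _).of_iso φ.symm⟩, ⟨_, (JCls_fam _).of_iso ψ.symm⟩, ?_⟩
    · unfold red
      rw [if_neg h, hX', hY']
    · constructor
      · rintro ⟨n, m, X, Y, h1, h2, ⟨χ⟩⟩
        exfalso
        apply h
        refine ⟨⟨(valid_iff _).2 ⟨n, X, h1⟩, (valid_iff _).2 ⟨m, Y, h2⟩⟩, ?_⟩
        rw [← h1, ← h2, length_adjMatrix, length_adjMatrix]
        have := Fintype.card_congr χ.toEquiv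
        simpa using this
      · rintro ⟨χ⟩
        exact absurd ⟨φ.symm.trans (χ.trans ψ)⟩ not_iso

theorem poly_red : Poly red := by
  unfold red
  fun_prop

/-- The reduction on bit strings. -/
noncomputable def redBits (x : List Bool) : List (List Bool) × List (List Bool) :=
  (unbits (List (List Bool) × List (List Bool)) x).elim (red ([], [[]])) red

theorem poly_redBits : Poly redBits := by
  unfold redBits
  exact NPC.Poly.optElim poly_unbits (NPC.Poly.const _) (poly_red.comp (NPC.Poly.snd NPC.Poly.id))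

theorem redBits_spec (x : List Bool) :
    ∃ (N M : ℕ) (X' : SimpleGraph (Fin N)) (Y' : SimpleGraph (Fin M)),
      redBits x = (adjMatrix X', adjMatrix Y') ∧ (∃ k, JCls k X') ∧ (∃ k, JCls k Y') ∧
        (x ∈ lang GraphIso ↔ Nonempty (X' ≃g Y')) := by
  unfold redBits
  rw [mem_lang_iff]
  cases h : unbits (List (List Bool) × List (List Bool)) x with
  | none =>
    obtain ⟨N, M, X', Y', h1, h2, h3, h4⟩ := red_spec ([], [[]])
    refine ⟨N, M, X', Y', h1, h2, h3, ?_⟩
    rw [← h4]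
    constructor
    · rintro ⟨a, ha, _⟩
      exact absurd ha (by simp)
    · rintro ⟨n, m, X, Y, e1, e2, -⟩
      exfalso
      have h5 : m = 1 := by
        rw [← length_adjMatrix Y, e2]
        rfl
      subst h5
      simp [adjMatrix] at e2
  | some p =>
    obtain ⟨N, M, X', Y', h1, h2, h3, h4⟩ := red_spec p
    refine ⟨N, M, X', Y', h1, h2, h3, ?_⟩
    rw [← h4]
    constructor
    · rintro ⟨a, ha, h5⟩
      rw [Option.some.inj ha]
      exact h5
    · intro h5
      exact ⟨p, rfl, h5⟩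

/-- The reduction. -/
theorem main : ∃ f : List Bool → List Bool, PolyTime f ∧ ∀ x : List Bool,
    ∃ (N M : ℕ) (X' : SimpleGraph (Fin N)) (Y' : SimpleGraph (Fin M)),
      f x = bits (adjMatrix X', adjMatrix Y') ∧ (∃ k, JCls k X') ∧ (∃ k, JCls k Y') ∧
        (x ∈ lang GraphIso ↔ Nonempty (X' ≃g Y')) := by
  refine ⟨fun x => bits (redBits x), polyTime_bits poly_redBits, fun x => ?_⟩
  obtain ⟨N, M, X', Y', h1, h2, h3, h4⟩ := redBits_spec x
  exact ⟨N, M, X', Y', congrArg bits h1, h2, h3, h4⟩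

end Pool.Agent.U29.JS
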